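import Pool.Agent.E8T5G.TAU

/-!
# [E8T5G] the primes `p` with `5^4 ∣ τ(p)`
-/

set_option autoImplicit false

open E8X (tau)

namespace E8T5G

/-- powers in a finite field -/
theorem pow_crit {K : Type} [Field K] [Finite K] {n q : ℕ} (hq : 0 < q) (hN : n * q = Nat.card K - 1)
    {u : K} (hu : u ≠ 0) : (∃ y : K, y ^ n = u) ↔ u ^ q = 1 := by
  classical
  constructor
  · rintro ⟨y, rfl⟩
    have := Fintype.ofFinite K
    have hn : n ≠ 0 := by
      rintro rfl
      rw [zero_mul] at hN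
      have h1 : 1 < Nat.card K := Finite.one_lt_card
      omega
    have hy : y ≠ 0 := by
      rintro rfl
      exact hu (zero_pow hn)
    rw [← pow_mul, hN, Nat.card_eq_fintype_card]
    exact FiniteField.pow_card_sub_one_eq_one y hy
  · intro h
    have := Fintype.ofFinite K
    obtain ⟨g, hg⟩ := IsCyclic.exists_generator (α := Kˣ)
    have ho : orderOf g = n * q := by
      rw [orderOf_eq_card_of_forall_mem_zpowers hg, hN, Nat.card_eq_fintype_card, Fintype.card_units,
        Nat.card_eq_fintype_card]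
    obtain ⟨k, hk⟩ := (Submonoid.mem_powers_iff _ _).mp
      ((mem_powers_iff_mem_zpowers).mpr (hg (Units.mk0 u hu)))
    have h2 : g ^ (k * q) = 1 := by
      rw [pow_mul, hk]
      apply Units.ext
      simpa using h
    have h3 := orderOf_dvd_of_pow_eq_one h2
    rw [ho] at h3
    obtain ⟨j, rfl⟩ := Nat.dvd_of_mul_dvd_mul_right hq h3
    refine ⟨((g ^ j : Kˣ) : K), ?_⟩
    have h5 : (g ^ j) ^ n = Units.mk0 u hu := by
      rw [← hk, ← pow_mul, mul_comm]
    have := congrArg (fun u : Kˣ => (u : K)) h5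
    simpa using this

/-- `x² - 5 x + 5 ≠ 0` if `x⁵ = 5` -/
theorem f_ne {K : Type} [Field K] (h5 : (5 : K) ≠ 0) {x : K} (hx : x ^ 5 = 5) : x ^ 2 - 5 * x + 5 ≠ 0 := by
  intro h0
  have h2 : x ^ 2 = 5 * x - 5 := by linear_combination h0
  have h3 : x ^ 5 = 275 * x - 375 := by
    have h4 : x ^ 4 = 75 * x - 100 := by
      linear_combination (x ^ 2 + 5 * x + 20) * h2
    linear_combination x * h4 + 75 * h2
  have h6 : 55 * x = 76 := by
    have : (5 : K) * (55 * x - 76) = 0 := by linear_combination hx - h3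
    rcases mul_eq_zero.1 this with h7 | h7
    · exact absurd h7 h5
    · linear_combination h7
  have h8 : (1 : K) = 0 := by
    have h9 : (76 : K) ^ 2 = 275 * 76 - 15125 := by
      rw [← h6]
      linear_combination 3025 * h2
    linear_combination h9
  exact one_ne_zero h8

theorem exists_s {p : ℕ} (hp : p.Prime) (h5 : p % 5 = 4) {K : Type} [Field K] (hK : Nat.card K = p ^ 2) :
    ∃ s : K, s ^ 2 = 5 := by
  classical
  have : Fact p.Prime := ⟨hp⟩
  have hfin : Finite K := Nat.finite_of_card_ne_zero (by rw [hK]; exact pow_ne_zero _ hp.ne_zero)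
  have := Fintype.ofFinite K
  have : CharP K p := charP_of_card hp (by rw [← Nat.card_eq_fintype_card, hK])
  obtain ⟨r, hr⟩ := E8T5.CN.exists_sqrt5 (p := p) h5
  refine ⟨(ZMod.castHom dvd_rfl K) r, ?_⟩
  rw [← map_pow, hr]
  exact map_ofNat _ 5

/-- a fifth root of `5` outside the prime field -/
theorem exists_x {p : ℕ} (hp : p.Prime) (h5 : p % 5 = 4) {K : Type} [Field K] (hK : Nat.card K = p ^ 2) :
    ∃ x : K, x ^ 5 = 5 ∧ x ^ (p - 1) ≠ 1 := by
  classical
  have : Fact p.Prime := ⟨hp⟩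
  have hfin : Finite K := Nat.finite_of_card_ne_zero (by rw [hK]; exact pow_ne_zero _ hp.ne_zero)
  have := Fintype.ofFinite K
  have hcard : Fintype.card K = p ^ 2 := by rw [← Nat.card_eq_fintype_card, hK]
  have : CharP K p := charP_of_card hp hcard
  have hp2 := hp.two_le
  have c5 : (5 : K) ≠ 0 := by
    intro h0
    have h1 : ((5 : ℕ) : K) = 0 := by exact_mod_cast h0
    have h2 := (CharP.cast_eq_zero_iff K p 5).mp h1
    have := (Nat.prime_dvd_prime_iff_eq hp (by norm_num)).mp h2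
    omega
  have f5 : (5 : K) ^ p = 5 := by
    have := map_natCast (frobenius K p) 5
    simpa [frobenius_def] using this
  have g5 : (5 : K) ^ (p - 1) = 1 := by
    have h3 : (5 : K) * 5 ^ (p - 1) = 5 * 1 := by
      rw [← pow_succ', Nat.sub_add_cancel (by omega), f5, mul_one]
    exact mul_left_cancel₀ c5 h3
  -- `θ = 5^e`, `5 e = 1 + 3 (p - 1)`... `3 (p-1) + 1 = 0 mod 5`
  obtain ⟨e, he⟩ : ∃ e, 3 * (p - 1) + 1 = 5 * e := ⟨(3 * (p - 1) + 1) / 5, by omega⟩
  have hθ : ((5 : K) ^ e) ^ 5 = 5 := by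
    rw [← pow_mul, mul_comm, ← he, pow_succ, mul_comm 3, pow_mul, g5, one_pow, one_mul]
  have hθp : ((5 : K) ^ e) ^ (p - 1) = 1 := by
    rw [← pow_mul, mul_comm, pow_mul, g5, one_pow]
  -- `ζ`
  obtain ⟨g, hg⟩ := IsCyclic.exists_generator (α := Kˣ)
  have ho : orderOf g = p ^ 2 - 1 := by
    rw [orderOf_eq_card_of_forall_mem_zpowers hg, Nat.card_eq_fintype_card, Fintype.card_units, hcard]
  obtain ⟨n, hn⟩ : ∃ n, p + 1 = 5 * n := ⟨(p + 1) / 5, by omega⟩
  have hpp : p ^ 2 - 1 = 5 * (n * (p - 1)) := by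
    obtain ⟨q, rfl⟩ : ∃ q, p = q + 1 := ⟨p - 1, by omega⟩
    simp only [Nat.add_sub_cancel]
    have h3 : (q + 1) ^ 2 = (q + 1 + 1) * q + 1 := by ring
    rw [h3, hn, Nat.add_sub_cancel]; ring
  have hnpos : 0 < n * (p - 1) := Nat.mul_pos (by omega) (by omega)
  set ζ : Kˣ := g ^ (n * (p - 1)) with hζd
  have hζ5 : ζ ^ 5 = 1 := by
    rw [hζd, ← pow_mul, mul_comm, ← hpp, ← ho, pow_orderOf_eq_one]
  have hζ1 : ζ ≠ 1 := by
    intro h1
    have h2 := orderOf_dvd_of_pow_eq_one (hζd ▸ h1)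
    rw [ho, hpp] at h2
    have := Nat.le_of_dvd hnpos h2
    omega
  have hζ5' : (ζ : K) ^ 5 = 1 := by
    rw [← Units.val_pow_eq_pow_val, hζ5, Units.val_one]
  have hζ1' : (ζ : K) ≠ 1 := fun h => hζ1 (Units.ext h)
  refine ⟨5 ^ e * ζ, by rw [mul_pow, hθ, hζ5', mul_one], ?_⟩
  rw [mul_pow, hθp, one_mul]
  intro h1
  apply hζ1'
  -- `ζ^(p-1) = ζ^3`
  rw [pow_eq_pow_mod (p - 1) hζ5', show (p - 1) % 5 = 3 by omega] at h1
  have h6 : (ζ : K) ^ 6 = 1 := by
    rw [show 6 = 3 * 2 from rfl, pow_mul, h1, one_pow]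
  rw [pow_succ, hζ5', one_mul] at h6
  exact h6

theorem poly125 : ∀ x : ZMod 125, x.val % 5 = 4 →
    106 * (1 + x ^ 11) - 200 * (1 + x ^ 5) + (180 - 50 * x) * (1 + x) = 0 → x = -1 := by
  decide +kernel

/-- **The primes `p ≠ 5` with `5^4 ∣ τ(p)`:** these are the primes `p ≡ -1 mod 125` such that
`x (x² - 5 x + 5)^25` is a `125`-th power in the field with `p²` elements for all `x` with `x⁵ = 5`. -/
theorem tau_625_iff {p : ℕ} (hp : p.Prime) (hp5 : p ≠ 5) {K : Type} [Field K] (hK : Nat.card K = p ^ 2) :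
    (625 : ℤ) ∣ tau p ↔ 125 ∣ p + 1 ∧ ∀ x : K, x ^ 5 = 5 → ∃ y : K, y ^ 125 = x * (x ^ 2 - 5 * x + 5) ^ 25 := by
  classical
  have : Fact p.Prime := ⟨hp⟩
  have hfin : Finite K := Nat.finite_of_card_ne_zero (by rw [hK]; exact pow_ne_zero _ hp.ne_zero)
  have := Fintype.ofFinite K
  have hcard : Fintype.card K = p ^ 2 := by rw [← Nat.card_eq_fintype_card, hK]
  have : CharP K p := charP_of_card hp hcard
  have hp2 := hp.two_le
  have c5 : (5 : K) ≠ 0 := by
    intro h0
    have h1 : ((5 : ℕ) : K) = 0 := by exact_mod_cast h0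
    have h2 := (CharP.cast_eq_zero_iff K p 5).mp h1
    exact hp5 ((Nat.prime_dvd_prime_iff_eq hp (by norm_num)).mp h2)
  have f5 : (5 : K) ^ p = 5 := by
    have := map_natCast (frobenius K p) 5
    simpa [frobenius_def] using this
  have g5 : (5 : K) ^ (p - 1) = 1 := by
    have h3 : (5 : K) * 5 ^ (p - 1) = 5 * 1 := by
      rw [← pow_succ', Nat.sub_add_cancel (by omega), f5, mul_one]
    exact mul_left_cancel₀ c5 h3
  -- the main equivalence for `p ≡ -1 mod 125`
  have main : 125 ∣ p + 1 → ((625 : ℤ) ∣ tau p ↔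
      ∀ x : K, x ^ 5 = 5 → ∃ y : K, y ^ 125 = x * (x ^ 2 - 5 * x + 5) ^ 25) := by
    intro h125
    have hp4 : p % 5 = 4 := by omega
    obtain ⟨s, hs⟩ := exists_s hp hp4 hK
    rw [(E8T5.tau_law_125 hp h125 hK hs).2]
    have hlaw := fun x (hx : x ^ 5 = 5) => law hp (by omega) hK hs hx
    have hNq : Nq p s = E8T5.Nf p s := rfl
    rw [← hNq]
    obtain ⟨w, hw⟩ := h125
    have hwd : (p + 1) / 125 = w := by omega
    rw [hwd]
    have hsq : p ^ 2 - 1 = 125 * (w * (p - 1)) := by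
      obtain ⟨q, rfl⟩ : ∃ q, p = q + 1 := ⟨p - 1, by omega⟩
      simp only [Nat.add_sub_cancel]
      have h3 : (q + 1) ^ 2 = (q + 1 + 1) * q + 1 := by ring
      rw [h3, hw, Nat.add_sub_cancel]; ring
    have hwpos : 0 < w * (p - 1) := Nat.mul_pos (by omega) (by omega)
    have key : ∀ x : K, x ^ 5 = 5 →
        ((∃ y : K, y ^ 125 = x * (x ^ 2 - 5 * x + 5) ^ 25) ↔
          (x ^ (p - 1)) ^ w = (x ^ (p - 1)) ^ Nq p s) := by
      intro x hx
      have hx0 : x ≠ 0 := by
        rintro rfl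
        rw [zero_pow (by norm_num)] at hx
        exact c5 hx.symm
      have hf0 := f_ne c5 hx
      rw [pow_crit (q := w * (p - 1)) hwpos (by rw [hK]; exact hsq.symm)
        (mul_ne_zero hx0 (pow_ne_zero 25 hf0))]
      have h1 := hlaw x hx
      have e5 : (p ^ 2 - 1) / 5 = 25 * (w * (p - 1)) := by
        rw [hsq]; omega
      have hx25 : x ^ (25 * (w * (p - 1))) = 1 := by
        rw [show 25 * (w * (p - 1)) = 5 * ((p - 1) * (5 * w)) by ring, pow_mul, hx, pow_mul, g5, one_pow]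
      have eg : x ^ 3 - 5 * x ^ 2 + 5 * x = x * (x ^ 2 - 5 * x + 5) := by ring
      rw [eg, e5, mul_pow, hx25, one_mul, pow_mul x (p - 1)] at h1
      have e1 : (x * (x ^ 2 - 5 * x + 5) ^ 25) ^ (w * (p - 1)) =
          (x ^ (p - 1)) ^ w * (x ^ 2 - 5 * x + 5) ^ (25 * (w * (p - 1))) := by
        rw [mul_pow, ← pow_mul, ← pow_mul, mul_comm w (p - 1)]
      rw [e1]
      generalize (x ^ (p - 1)) ^ w = A at *
      generalize (x ^ (p - 1)) ^ Nq p s = B at *
      generalize (x ^ 2 - 5 * x + 5) ^ (25 * (w * (p - 1))) = F at *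
      constructor
      · intro h2
        linear_combination B * h2 - A * h1
      · intro h2
        rw [h2]
        linear_combination h1
    have hmod : ∀ x : K, x ^ 5 = 5 → (x ^ (p - 1)) ^ 5 = 1 := by
      intro x hx
      rw [← pow_mul, mul_comm, pow_mul, hx, g5]
    constructor
    · intro hN x hx
      rw [key x hx, pow_eq_pow_mod w (hmod x hx), pow_eq_pow_mod (Nq p s) (hmod x hx), hN]
    · intro hall
      obtain ⟨x, hx, hx1⟩ := exists_x hp hp4 hK
      have h1 := (key x hx).1 (hall x hx)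
      have hr : IsPrimitiveRoot (x ^ (p - 1)) 5 := by
        have : Fact (Nat.Prime 5) := ⟨by norm_num⟩
        have ho : orderOf (x ^ (p - 1)) = 5 := orderOf_eq_prime (hmod x hx) hx1
        have := IsPrimitiveRoot.orderOf (x ^ (p - 1))
        rwa [ho] at this
      rw [pow_eq_pow_mod w (hmod x hx), pow_eq_pow_mod (Nq p s) (hmod x hx)] at h1
      exact (hr.pow_inj (Nat.mod_lt _ (by norm_num)) (Nat.mod_lt _ (by norm_num)) h1).symm
  constructor
  · intro h
    have h5 : (5 : ℤ) ∣ tau p := Dvd.dvd.trans (by norm_num) h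
    have h6 := T5X.tau_5 p
    have h7 : (5 : ℤ) ∣ p * (ArithmeticFunction.sigma 1 p : ℤ) := by
      have := dvd_sub h5 h6
      rwa [sub_sub_cancel] at this
    have h8 : (ArithmeticFunction.sigma 1 p : ℤ) = p + 1 := by
      rw [ArithmeticFunction.sigma_one_apply, hp.sum_divisors]
      push_cast
      ring
    rw [h8] at h7
    have hp4 : p % 5 = 4 := by
      have h9 : (5 : ℕ) ∣ p * (p + 1) := by exact_mod_cast h7
      rcases (Nat.Prime.dvd_mul (by norm_num)).1 h9 with h10 | h10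
      · exact absurd ((Nat.prime_dvd_prime_iff_eq (by norm_num) hp).1 h10).symm hp5
      · omega
    have h125 : 125 ∣ p + 1 := by
      obtain ⟨s, hs⟩ := exists_s hp hp4 hK
      have h9 := E8T5.tau_law hp hp4 hK hs
      have h10 : (125 : ℤ) ∣ 106 * (1 + (p : ℤ) ^ 11) - 200 * (1 + (p : ℤ) ^ 5) + (180 - 50 * p) * (1 + p) := by
        have h11 := dvd_sub h h9
        have h12 : (125 : ℤ) ∣ tau p - (tau p - (106 * (1 + (p : ℤ) ^ 11) - 200 * (1 + (p : ℤ) ^ 5) +
            (180 - 50 * p) * (1 + p) - 125 * E8T5.Nf p s)) := Dvd.dvd.trans (by norm_num) h11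
        have h13 := dvd_add h12 (dvd_mul_right (125 : ℤ) (E8T5.Nf p s))
        have e13 : tau p - (tau p - (106 * (1 + (p : ℤ) ^ 11) - 200 * (1 + (p : ℤ) ^ 5) +
            (180 - 50 * p) * (1 + p) - 125 * E8T5.Nf p s)) + 125 * (E8T5.Nf p s : ℤ) =
            106 * (1 + (p : ℤ) ^ 11) - 200 * (1 + (p : ℤ) ^ 5) + (180 - 50 * p) * (1 + p) := by ring
        rwa [e13] at h13
      have h14 := (ZMod.intCast_zmod_eq_zero_iff_dvd _ 125).2 h10
      push_cast at h14
      have h15 := poly125 (p : ZMod 125) (by rw [ZMod.val_natCast]; omega) h14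
      have h16 : ((p + 1 : ℕ) : ZMod 125) = 0 := by
        push_cast
        rw [h15]
        ring
      exact (ZMod.natCast_eq_zero_iff _ _).1 h16
    exact ⟨h125, (main h125).1 h⟩
  · rintro ⟨h1, h2⟩
    exact (main h1).2 h2

end E8T5G

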