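import Mathlib

open Finset Polynomial

namespace E8T5G

/-- The setting: `K` has `p ^ 2` elements, `p + 1 = 5 z`, `ζ` is a primitive fifth root of
unity and `L` is the fifth power residue logarithm with respect to `ζ`. -/
structure Ctx (K : Type) [Field K] [Fintype K] (p z : ℕ) (ζ : K) (L : K → ZMod 5) : Prop where
  hp : p.Prime
  hz : p + 1 = 5 * z
  hK : Fintype.card K = p ^ 2
  hc : CharP K p
  hζ : ζ ^ 5 = 1
  hζ1 : ζ ≠ 1
  hL : ∀ x : K, x ≠ 0 → x ^ ((p ^ 2 - 1) / 5) = ζ ^ (L x).val

/-- A square root of five in the prime field. -/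
structure Sq {K : Type} [Field K] (p : ℕ) (s : K) : Prop where
  sq : s ^ 2 = 5
  fr : s ^ p = s

section
variable {K : Type} [Field K] [Fintype K] [DecidableEq K]

/-- The point `(-11 + 5 s) / 2`. -/
def tq (s : K) : K := (-11 + 5 * s) / 2

/-- The torus `e ^ (p + 1) = ν`. -/
def EE (p : ℕ) (ν : K) : Finset K := univ.filter fun e => e ^ (p + 1) = ν

/-- The second torus. -/
def TT (p : ℕ) (s : K) : Finset K := univ.filter fun t => (t - tq s) ^ (p + 1) = tq s * (5 * s)

/-- `(1 + s) / 2`. -/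
def ph (s : K) : K := (1 + s) / 2

end
end E8T5G
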