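import Pool.Agent.E8T5G.Defs

open Finset Polynomial

namespace E8T5G

variable {K : Type} [Field K] [Fintype K] [DecidableEq K] {p z : ℕ} {ζ : K} {L : K → ZMod 5}

omit [Fintype K] [DecidableEq K] in
theorem zpow_inj {ζ : K} (h5 : ζ ^ 5 = 1) (h1 : ζ ≠ 1) {a b : ZMod 5}
    (h : ζ ^ a.val = ζ ^ b.val) : a = b := by
  have ho : orderOf ζ = 5 := by
    have : Fact (Nat.Prime 5) := ⟨by norm_num⟩
    exact orderOf_eq_prime h5 h1
  have hr : IsPrimitiveRoot ζ 5 := by
    have := IsPrimitiveRoot.orderOf ζ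
    rwa [ho] at this
  exact ZMod.val_injective 5 (hr.pow_inj (ZMod.val_lt a) (ZMod.val_lt b) h)

omit [Fintype K] [DecidableEq K] in
theorem zpow_add {ζ : K} (h5 : ζ ^ 5 = 1) (a b : ZMod 5) :
    ζ ^ (a + b).val = ζ ^ a.val * ζ ^ b.val := by
  rw [ZMod.val_add, ← pow_add]
  exact (pow_eq_pow_mod _ h5).symm

omit [Fintype K] [DecidableEq K] in
theorem zpow_nat {ζ : K} (h5 : ζ ^ 5 = 1) (n : ℕ) :
    ζ ^ ((n : ZMod 5)).val = ζ ^ n := by
  rw [ZMod.val_natCast]
  exact (pow_eq_pow_mod _ h5).symm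

omit [DecidableEq K] in
theorem Ctx.p_ge (h : Ctx K p z ζ L) : 19 ≤ p := by
  have h0 := h.hz
  have h1 := h.hp.two_le
  by_contra h2
  have h3 : p = 4 ∨ p = 9 ∨ p = 14 := by omega
  have h4 := h.hp
  rcases h3 with rfl | rfl | rfl <;> revert h4 <;> norm_num

omit [DecidableEq K] in
theorem Ctx.z_pos (h : Ctx K p z ζ L) : 0 < z := by
  have := h.hz
  omega

omit [DecidableEq K] in
theorem Ctx.odd (h : Ctx K p z ζ L) : Odd p := by
  rcases h.hp.eq_two_or_odd' with h1 | h1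
  · have := h.p_ge; omega
  · exact h1

omit [DecidableEq K] in
theorem Ctx.z_even (h : Ctx K p z ζ L) : Even z := by
  obtain ⟨k, hk⟩ := h.odd
  have h1 := h.hz
  rw [Nat.even_iff]
  omega

omit [DecidableEq K] in
theorem Ctx.N_eq (h : Ctx K p z ζ L) : p ^ 2 - 1 = 5 * (z * (p - 1)) := by
  have h1 : p ^ 2 - 1 = (p + 1) * (p - 1) := by
    have := h.p_ge
    obtain ⟨q, rfl⟩ : ∃ q, p = q + 1 := ⟨p - 1, by omega⟩
    simp only [Nat.add_sub_cancel]
    have : (q + 1) ^ 2 = (q + 1 + 1) * q + 1 := by ring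
    omega
  rw [h1, h.hz]; ring

omit [DecidableEq K] in
theorem Ctx.m_eq (h : Ctx K p z ζ L) : (p ^ 2 - 1) / 5 = z * (p - 1) := by
  rw [h.N_eq]; omega

omit [DecidableEq K] in
theorem Ctx.hL' (h : Ctx K p z ζ L) {x : K} (hx : x ≠ 0) :
    x ^ (z * (p - 1)) = ζ ^ (L x).val := by
  rw [← h.m_eq]; exact h.hL x hx

omit [DecidableEq K] in
theorem Ctx.ζ_ne (h : Ctx K p z ζ L) : ζ ≠ 0 := by
  intro h0
  have := h.hζ
  rw [h0] at this
  norm_num at this

omit [DecidableEq K] in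
theorem Ctx.L_mul (h : Ctx K p z ζ L) {x y : K} (hx : x ≠ 0) (hy : y ≠ 0) :
    L (x * y) = L x + L y := by
  apply zpow_inj h.hζ h.hζ1
  rw [zpow_add h.hζ, ← h.hL' hx, ← h.hL' hy, ← h.hL' (mul_ne_zero hx hy), mul_pow]

omit [DecidableEq K] in
theorem Ctx.L_one (h : Ctx K p z ζ L) : L 1 = 0 := by
  have := h.L_mul (one_ne_zero : (1 : K) ≠ 0) one_ne_zero
  rw [mul_one] at this
  simpa using this

omit [DecidableEq K] in
theorem Ctx.L_div (h : Ctx K p z ζ L) {x y : K} (hx : x ≠ 0) (hy : y ≠ 0) :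
    L (x / y) = L x - L y := by
  have := h.L_mul (div_ne_zero hx hy) hy
  rw [div_mul_cancel₀ _ hy] at this
  rw [this]; ring

omit [DecidableEq K] in
theorem Ctx.L_pow (h : Ctx K p z ζ L) {x : K} (hx : x ≠ 0) (n : ℕ) :
    L (x ^ n) = n * L x := by
  induction n with
  | zero => simp [h.L_one]
  | succ n ih =>
    rw [pow_succ, h.L_mul (pow_ne_zero n hx) hx, ih]
    push_cast; ring

omit [DecidableEq K] in
theorem Ctx.p_cast (h : Ctx K p z ζ L) : ((p : ℕ) : ZMod 5) = -1 := by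
  have h1 : ((p + 1 : ℕ) : ZMod 5) = 0 := by
    rw [h.hz, ZMod.natCast_eq_zero_iff]
    exact ⟨z, rfl⟩
  push_cast at h1
  exact eq_neg_of_add_eq_zero_left h1

omit [DecidableEq K] in
theorem Ctx.L_frob (h : Ctx K p z ζ L) {x : K} (hx : x ≠ 0) : L (x ^ p) = - L x := by
  rw [h.L_pow hx, h.p_cast]; ring

omit [DecidableEq K] in
theorem Ctx.L_fix (h : Ctx K p z ζ L) {x : K} (hx : x ≠ 0) (hf : x ^ p = x) : L x = 0 := by
  have h1 := h.L_frob hx
  rw [hf] at h1
  generalize L x = a at h1 ⊢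
  revert a; decide

omit [DecidableEq K] in
theorem Ctx.L_neg (h : Ctx K p z ζ L) (x : K) : L (-x) = L x := by
  by_cases hx : x = 0
  · rw [hx, neg_zero]
  · have h1 : L (-1 : K) = 0 := h.L_fix (by simp) (h.odd.neg_one_pow)
    rw [show -x = (-1) * x by ring, h.L_mul (by simp) hx, h1, zero_add]

omit [DecidableEq K] in
theorem Ctx.L_zeta (h : Ctx K p z ζ L) : L ζ = 3 * (z : ZMod 5) := by
  apply zpow_inj h.hζ h.hζ1
  have h1 : (3 * (z : ZMod 5)) = ((z * (p - 1) : ℕ) : ZMod 5) := by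
    have h2 := h.p_ge
    have h3 := h.p_cast
    rw [Nat.cast_mul, Nat.cast_sub (by omega), h3, Nat.cast_one]
    have : (3 : ZMod 5) = -1 - 1 := by decide
    rw [this]; ring
  rw [← h.hL' h.ζ_ne, h1, zpow_nat h.hζ]

omit [DecidableEq K] in
theorem Ctx.L_zero_iff (h : Ctx K p z ζ L) {x : K} (hx : x ≠ 0) : L x = 0 ↔ ∃ y, y ^ 5 = x := by
  classical
  constructor
  · intro h0
    have h1 := h.hL' hx
    rw [h0, ZMod.val_zero, pow_zero] at h1
    obtain ⟨g, hg⟩ := IsCyclic.exists_generator (α := Kˣ)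
    obtain ⟨k, hk⟩ := (Submonoid.mem_powers_iff _ _).mp
      ((mem_powers_iff_mem_zpowers).mpr (hg (Units.mk0 x hx)))
    have ho : orderOf g = 5 * (z * (p - 1)) := by
      rw [orderOf_eq_card_of_forall_mem_zpowers hg, Nat.card_eq_fintype_card, Fintype.card_units, h.hK,
        h.N_eq]
    have h2 : g ^ (k * (z * (p - 1))) = 1 := by
      rw [pow_mul, hk]
      apply Units.ext
      simpa using h1
    have h3 := orderOf_dvd_of_pow_eq_one h2
    rw [ho] at h3
    have hpos : 0 < z * (p - 1) := by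
      have := h.z_pos; have := h.p_ge
      apply Nat.mul_pos (by omega) (by omega)
    have h4 : 5 ∣ k := Nat.dvd_of_mul_dvd_mul_right hpos h3
    obtain ⟨j, rfl⟩ := h4
    refine ⟨((g ^ j : Kˣ) : K), ?_⟩
    have h5 : (g ^ j) ^ 5 = Units.mk0 x hx := by
      rw [← hk, ← pow_mul, mul_comm]
    have := congrArg (fun u : Kˣ => (u : K)) h5
    simpa using this
  · rintro ⟨y, rfl⟩
    have hy : y ≠ 0 := by
      rintro rfl; simp at hx
    rw [h.L_pow hy]
    have : ((5 : ℕ) : ZMod 5) = 0 := by decide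
    rw [this, zero_mul]

omit [DecidableEq K] in
theorem Ctx.frob_add (h : Ctx K p z ζ L) (x y : K) : (x + y) ^ p = x ^ p + y ^ p := by
  have := h.hc
  have : Fact p.Prime := ⟨h.hp⟩
  exact add_pow_char x y p

omit [DecidableEq K] in
theorem Ctx.frob_sub (h : Ctx K p z ζ L) (x y : K) : (x - y) ^ p = x ^ p - y ^ p := by
  have := h.hc
  have : Fact p.Prime := ⟨h.hp⟩
  exact sub_pow_char x y

omit [DecidableEq K] in
theorem Ctx.frob_neg (h : Ctx K p z ζ L) (x : K) : (-x) ^ p = - x ^ p := h.odd.neg_pow x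

omit [DecidableEq K] in
theorem Ctx.frob_nat (h : Ctx K p z ζ L) (n : ℕ) : (n : K) ^ p = n := by
  have := h.hc
  have : Fact p.Prime := ⟨h.hp⟩
  induction n with
  | zero => simp [h.hp.ne_zero]
  | succ n ih => push_cast; rw [h.frob_add, ih, one_pow]

omit [DecidableEq K] in
theorem Ctx.frob_frob (h : Ctx K p z ζ L) (x : K) : (x ^ p) ^ p = x := by
  rw [← pow_mul, ← sq, ← h.hK]
  exact FiniteField.pow_card x

omit [DecidableEq K] in
theorem Ctx.frob_zeta (h : Ctx K p z ζ L) : ζ ^ p = ζ ^ 4 := by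
  rw [pow_eq_pow_mod p h.hζ]
  have : p % 5 = 4 := by have := h.hz; omega
  rw [this]

omit [DecidableEq K] in
theorem Ctx.cast_ne (h : Ctx K p z ζ L) {n : ℕ} (h1 : 0 < n) (h2 : n < 19) : (n : K) ≠ 0 := by
  have := h.hc
  intro h0
  have h3 := (CharP.cast_eq_zero_iff K p n).mp h0
  have h4 := Nat.le_of_dvd h1 h3
  have := h.p_ge
  omega

omit [DecidableEq K] in
theorem Ctx.two_ne (h : Ctx K p z ζ L) : (2 : K) ≠ 0 := by
  have := h.cast_ne (n := 2) (by norm_num) (by norm_num)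
  exact_mod_cast this

omit [DecidableEq K] in
theorem Ctx.five_ne (h : Ctx K p z ζ L) : (5 : K) ≠ 0 := by
  have := h.cast_ne (n := 5) (by norm_num) (by norm_num)
  exact_mod_cast this

omit [DecidableEq K] in
theorem Ctx.tq_mul (h : Ctx K p z ζ L) {s : K} (hs : Sq p s) : tq s * tq (-s) = -1 := by
  have h2 := h.two_ne
  unfold tq
  field_simp
  linear_combination (-25) * hs.sq

omit [DecidableEq K] in
theorem Ctx.tq_add (h : Ctx K p z ζ L) (s : K) : tq s + tq (-s) = -11 := by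
  have h2 := h.two_ne
  unfold tq
  field_simp
  ring

omit [DecidableEq K] in
theorem Ctx.tq_sub (h : Ctx K p z ζ L) (s : K) : tq s - tq (-s) = 5 * s := by
  have h2 := h.two_ne
  unfold tq
  field_simp
  ring

omit [DecidableEq K] in
theorem Ctx.tq_ne (h : Ctx K p z ζ L) {s : K} (hs : Sq p s) : tq s ≠ 0 := by
  intro h0
  have := h.tq_mul hs
  rw [h0, zero_mul] at this
  have h1 : (1 : K) = 0 := by linear_combination this
  exact one_ne_zero h1

omit [DecidableEq K] in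
theorem Ctx.s_ne (h : Ctx K p z ζ L) {s : K} (hs : Sq p s) : s ≠ 0 := by
  intro h0
  have := hs.sq
  rw [h0] at this
  exact h.five_ne (by rw [← this]; ring)

omit [DecidableEq K] in
theorem Ctx.tq_frob (h : Ctx K p z ζ L) {s : K} (hs : Sq p s) : tq s ^ p = tq s := by
  have h2 : (2 : K) ^ p = 2 := by exact_mod_cast h.frob_nat 2
  have h5 : (5 : K) ^ p = 5 := by exact_mod_cast h.frob_nat 5
  have h11 : (11 : K) ^ p = 11 := by exact_mod_cast h.frob_nat 11
  unfold tq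
  rw [div_pow, h.frob_add, h.frob_neg, mul_pow, h2, h5, h11, hs.fr]

omit [DecidableEq K] in
theorem Ctx.ph_frob (h : Ctx K p z ζ L) {s : K} (hs : Sq p s) : ph s ^ p = ph s := by
  have h2 : (2 : K) ^ p = 2 := by exact_mod_cast h.frob_nat 2
  unfold ph
  rw [div_pow, h.frob_add, one_pow, h2, hs.fr]

omit [DecidableEq K] in
theorem Ctx.ph_sq (h : Ctx K p z ζ L) {s : K} (hs : Sq p s) : ph s ^ 2 = ph s + 1 := by
  have h2 := h.two_ne
  unfold ph
  field_simp
  linear_combination hs.sq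

omit [DecidableEq K] in
theorem Ctx.ph_tq (h : Ctx K p z ζ L) {s : K} (hs : Sq p s) : ph s ^ 5 * tq s = 1 := by
  have h1 := h.ph_sq hs
  have h5 : ph s ^ 5 = 5 * ph s + 3 := by
    have h4 : ph s ^ 4 = 3 * ph s + 2 := by
      linear_combination (ph s ^ 2 + ph s + 2) * h1
    linear_combination (ph s) * h4 + 3 * h1
  have h2 := h.two_ne
  rw [h5]
  unfold ph tq
  field_simp
  linear_combination 25 * hs.sq

omit [DecidableEq K] in
theorem Ctx.ph_mul (h : Ctx K p z ζ L) {s : K} (hs : Sq p s) : ph s * ph (-s) = -1 := by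
  have h2 := h.two_ne
  unfold ph
  field_simp
  linear_combination (-1) * hs.sq

omit [DecidableEq K] in
theorem Ctx.ph_ne (h : Ctx K p z ζ L) {s : K} (hs : Sq p s) : ph s ≠ 0 := by
  intro h0
  have := h.ph_mul hs
  rw [h0, zero_mul] at this
  have h1 : (1 : K) = 0 := by linear_combination this
  exact one_ne_zero h1

omit [DecidableEq K] in
theorem Ctx.sneg (h : Ctx K p z ζ L) {s : K} (hs : Sq p s) : Sq p (-s) :=
  ⟨by rw [neg_sq, hs.sq], by rw [h.frob_neg, hs.fr]⟩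

end E8T5G
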