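import Pool.Agent.E8T5G.Q1

open Finset Polynomial

namespace E8T5G

section gen
variable {K : Type} [Field K] [Fintype K] [DecidableEq K]

/-- Roots of `X ^ n = c` in a finite field, `n q = |K| - 1`, `c ^ q = 1`. -/
theorem roots_gen {n q : ℕ} (hn : 0 < n) (hq : 0 < q) (hN : n * q = Fintype.card K - 1) {c : K}
    (hc0 : c ≠ 0) (hc : c ^ q = 1) :
    (univ.filter fun x : K => x ^ n = c).card = n ∧
      ∀ a : K, ∏ x ∈ univ.filter (fun x : K => x ^ n = c), (a - x) = a ^ n - c := by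
  classical
  obtain ⟨g, hg⟩ := IsCyclic.exists_generator (α := Kˣ)
  have ho : orderOf g = n * q := by
    rw [orderOf_eq_card_of_forall_mem_zpowers hg, Nat.card_eq_fintype_card, Fintype.card_units, hN]
  obtain ⟨k, hk⟩ := (Submonoid.mem_powers_iff _ _).mp
    ((mem_powers_iff_mem_zpowers).mpr (hg (Units.mk0 c hc0)))
  have h2 : g ^ (k * q) = 1 := by
    rw [pow_mul, hk]
    apply Units.ext
    simpa using hc
  have h3 := orderOf_dvd_of_pow_eq_one h2
  rw [ho] at h3
  obtain ⟨j, rfl⟩ := Nat.dvd_of_mul_dvd_mul_right hq h3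
  have hα : ((g ^ j : Kˣ) : K) ^ n = c := by
    have h5 : (g ^ j) ^ n = Units.mk0 c hc0 := by
      rw [← hk, ← pow_mul, mul_comm]
    have := congrArg (fun u : Kˣ => (u : K)) h5
    simpa using this
  have hprim : IsPrimitiveRoot ((g : K) ^ q) n := by
    have h6 : IsPrimitiveRoot g (n * q) := by
      rw [← ho]; exact IsPrimitiveRoot.orderOf g
    have h7 : IsPrimitiveRoot (g : K) (n * q) :=
      IsPrimitiveRoot.coe_units_iff.mpr h6
    exact h7.pow (Nat.mul_pos hn hq) (mul_comm n q)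
  have hcard : Multiset.card (nthRoots n c) = n := by
    rw [hprim.card_nthRoots, if_pos ⟨_, hα⟩]
  have hnd : (nthRoots n c).Nodup := hprim.nthRoots_nodup hc0
  have hS : (univ.filter fun x : K => x ^ n = c) = (nthRoots n c).toFinset := by
    ext x
    simp [mem_nthRoots hn]
  refine ⟨by rw [hS, Multiset.toFinset_card_of_nodup hnd, hcard], fun a => ?_⟩
  rw [hS]
  have hmon : (X ^ n - C c : K[X]).Monic := monic_X_pow_sub_C c hn.ne'
  have hroots : Multiset.card (X ^ n - C c : K[X]).roots = (X ^ n - C c : K[X]).natDegree := by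
    rw [natDegree_X_pow_sub_C]; exact hcard
  have hprod := prod_multiset_X_sub_C_of_monic_of_roots_card_eq hmon hroots
  have h8 := congrArg (fun P : K[X] => P.eval a) hprod
  simp only [eval_sub, eval_pow, eval_X, eval_C] at h8
  rw [← h8, eval_multiset_prod, Multiset.map_map]
  rw [Finset.prod_eq_multiset_prod, Multiset.toFinset_val, Multiset.dedup_eq_self.mpr hnd]
  congr 1
  refine Multiset.map_congr rfl fun x _ => ?_
  simp

end gen

variable {K : Type} [Field K] [Fintype K] [DecidableEq K] {p z : ℕ} {ζ : K} {L : K → ZMod 5}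

theorem Ctx.cardN (h : Ctx K p z ζ L) : Fintype.card K - 1 = 5 * (z * (p - 1)) := by
  rw [h.hK, h.N_eq]

theorem Ctx.card_EE (h : Ctx K p z ζ L) {ν : K} (h0 : ν ≠ 0) (hf : ν ^ p = ν) :
    (EE p ν).card = p + 1 := by
  have hp1 := h.p_ge
  have h1 : (p + 1) * (p - 1) = Fintype.card K - 1 := by
    rw [h.cardN, h.hz]; ring
  refine (roots_gen (by omega) (by omega) h1 h0 ?_).1
  have h2 : ν * ν ^ (p - 1) = ν * 1 := by
    rw [← pow_succ', Nat.sub_add_cancel (by omega), hf, mul_one]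
  exact mul_left_cancel₀ h0 h2

theorem Ctx.fix_pow (h : Ctx K p z ζ L) {μ : K} (h0 : μ ≠ 0) (hf : μ ^ p = μ) :
    μ ^ (p - 1) = 1 := by
  have hp1 := h.p_ge
  have h2 : μ * μ ^ (p - 1) = μ * 1 := by
    rw [← pow_succ', Nat.sub_add_cancel (by omega), hf, mul_one]
  exact mul_left_cancel₀ h0 h2

/-- the classes are the root sets. -/
theorem Ctx.class_iff (h : Ctx K p z ζ L) {μ : K} (h0 : μ ≠ 0) (hf : μ ^ p = μ) (l : ZMod 5)
    (e : K) : (e ∈ EE p (μ ^ 5) ∧ L e = l) ↔ e ^ z = ζ ^ (2 * l.val) * μ := by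
  have hp1 := h.p_ge
  have hz5 : z * 5 = p + 1 := by rw [h.hz]; ring
  have key : ∀ j : ℕ, (ζ ^ (2 * j) * μ) ^ (p - 1) = ζ ^ j := by
    intro j
    have h5 : (p - 1) % 5 = 3 := by have := h.hz; omega
    rw [mul_pow, h.fix_pow h0 hf, mul_one, ← pow_mul, pow_eq_pow_mod _ h.hζ,
      pow_eq_pow_mod j h.hζ, Nat.mul_mod, h5]
    congr 1
    omega
  constructor
  · rintro ⟨he, hl⟩
    have he' : e ^ (p + 1) = μ ^ 5 := by simpa [EE] using he
    have he0 : e ≠ 0 := by
      rintro rfl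
      rw [zero_pow (by omega)] at he'
      exact pow_ne_zero 5 h0 he'.symm
    -- (e ^ n / μ) is a fifth root of unity
    have h1 : (e ^ z / μ) ^ 5 = 1 := by
      rw [div_pow, ← pow_mul, hz5, he', div_self (pow_ne_zero 5 h0)]
    have hr : IsPrimitiveRoot ζ 5 := by
      have : Fact (Nat.Prime 5) := ⟨by norm_num⟩
      have ho : orderOf ζ = 5 := orderOf_eq_prime h.hζ h.hζ1
      have := IsPrimitiveRoot.orderOf ζ
      rwa [ho] at this
    obtain ⟨i, hi, hi2⟩ := hr.eq_pow_of_pow_eq_one h1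
    have h3 : e ^ z = ζ ^ i * μ := by
      rw [hi2, div_mul_cancel₀ _ h0]
    -- raise to p - 1
    have h4 := h.hL' he0
    rw [pow_mul, h3] at h4
    -- i = 2 * (3 i)
    have h6 : ζ ^ i = ζ ^ (2 * (3 * i)) := by
      rw [pow_eq_pow_mod i h.hζ, pow_eq_pow_mod (2 * (3 * i)) h.hζ]
      congr 1
      omega
    rw [h6, key, hl] at h4
    rw [h3, h6, pow_mul' ζ 2, h4, ← pow_mul, mul_comm l.val 2]
  · intro he
    have he0 : e ≠ 0 := by
      rintro rfl
      rw [zero_pow (by have := h.z_pos; omega)] at he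
      exact (mul_ne_zero (pow_ne_zero _ h.ζ_ne) h0) he.symm
    refine ⟨?_, ?_⟩
    · simp only [EE, mem_filter, mem_univ, true_and]
      rw [← hz5, pow_mul, he, mul_pow, ← pow_mul, mul_comm, mul_comm _ 5, pow_mul, h.hζ, one_pow,
        mul_one]
    · apply zpow_inj h.hζ h.hζ1
      rw [← h.hL' he0, pow_mul, he, key]

theorem Ctx.class_roots (h : Ctx K p z ζ L) {μ : K} (h0 : μ ≠ 0) (hf : μ ^ p = μ) (l : ZMod 5) :
    (univ.filter fun e : K => e ^ z = ζ ^ (2 * l.val) * μ).card = z ∧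
      ∀ a : K, ∏ x ∈ univ.filter (fun e : K => e ^ z = ζ ^ (2 * l.val) * μ), (a - x)
        = a ^ z - ζ ^ (2 * l.val) * μ := by
  have hp1 := h.p_ge
  have hz := h.z_pos
  have h1 : z * (5 * (p - 1)) = Fintype.card K - 1 := by
    rw [h.cardN]; ring
  refine roots_gen (by omega) (by omega) h1 (mul_ne_zero (pow_ne_zero _ h.ζ_ne) h0) ?_
  rw [mul_pow, ← pow_mul, show 2 * l.val * (5 * (p - 1)) = 5 * (2 * l.val * (p - 1)) by ring,
    pow_mul, h.hζ, one_pow, one_mul, mul_comm 5, pow_mul, h.fix_pow h0 hf, one_pow]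

theorem Ctx.class_eq (h : Ctx K p z ζ L) {μ : K} (h0 : μ ≠ 0) (hf : μ ^ p = μ) (l : ZMod 5) :
    (EE p (μ ^ 5)).filter (fun e => L e = l)
      = univ.filter fun e : K => e ^ z = ζ ^ (2 * l.val) * μ := by
  ext e
  rw [mem_filter, mem_filter, h.class_iff h0 hf]
  simp

/-- split a sum according to the classes. -/
theorem sum_split {K : Type} (S : Finset K) (L : K → ZMod 5) (f : K → ZMod 5) :
    ∑ e ∈ S, f e = ∑ l : ZMod 5, ∑ e ∈ S.filter (fun e => L e = l), f e :=
  (Finset.sum_fiberwise S L f).symm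

theorem Ctx.sum_g (h : Ctx K p z ζ L) {μ : K} (h0 : μ ≠ 0) (hf : μ ^ p = μ) (g : ZMod 5 → ZMod 5) :
    ∑ e ∈ EE p (μ ^ 5), g (L e) = z * ∑ l : ZMod 5, g l := by
  rw [sum_split _ L, Finset.mul_sum]
  refine Finset.sum_congr rfl fun l _ => ?_
  rw [Finset.sum_congr rfl (g := fun _ => g l) (fun e he => by rw [(mem_filter.mp he).2]),
    Finset.sum_const, h.class_eq h0 hf, (h.class_roots h0 hf l).1, nsmul_eq_mul]

theorem Ctx.L_prod (h : Ctx K p z ζ L) (S : Finset K) (f : K → K) (hf : ∀ x ∈ S, f x ≠ 0) :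
    L (∏ x ∈ S, f x) = ∑ x ∈ S, L (f x) := by
  induction S using Finset.induction_on with
  | empty => simp [h.L_one]
  | insert a S ha ih =>
    rw [prod_insert ha, sum_insert ha, h.L_mul (hf a (mem_insert_self a S))
      (prod_ne_zero_iff.mpr fun x hx => hf x (mem_insert_of_mem hx)),
      ih fun x hx => hf x (mem_insert_of_mem hx)]

theorem Ctx.sum_lin (h : Ctx K p z ζ L) {μ : K} (h0 : μ ≠ 0) (hf : μ ^ p = μ) {a : K}
    (ha : a ^ (p + 1) ≠ μ ^ 5) (g : ZMod 5 → ZMod 5) :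
    ∑ e ∈ EE p (μ ^ 5), g (L e) * L (a - e) =
      ∑ l : ZMod 5, g l * L (a ^ z - ζ ^ (2 * l.val) * μ) := by
  rw [sum_split _ L]
  refine Finset.sum_congr rfl fun l _ => ?_
  rw [Finset.sum_congr rfl (g := fun e => g l * L (a - e))
    (fun e he => by rw [(mem_filter.mp he).2]), ← Finset.mul_sum]
  congr 1
  rw [← (h.class_roots h0 hf l).2 a, ← h.class_eq h0 hf, h.L_prod]
  intro e he
  have he1 := (mem_filter.mp he).1
  simp only [EE, mem_filter, mem_univ, true_and] at he1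
  intro h2
  rw [sub_eq_zero] at h2
  rw [h2] at ha
  exact ha he1

end E8T5G
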