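import Pool.Agent.E8T5G.Defs

/-!
The two double covers.  `K` a field with `p^2` elements, `a b = -1`, `a, b` in `F_p`, `a ≠ b`.
-/

set_option linter.unusedSectionVars false

namespace E8T5G

namespace Q3h

open Finset Polynomial

theorem cover {α β M : Type*} [DecidableEq β] [AddCommMonoid M] (A B : Finset α) (W : Finset β)
    (f : α → β) (hA : ∀ x ∈ A, f x ∈ W) (hB : ∀ x ∈ B, f x ∈ W)
    (h2 : ∀ w ∈ W, (A.filter (fun x => f x = w)).card + (B.filter (fun x => f x = w)).card ≤ 2)
    (hc : A.card + B.card = 2 * W.card) (G : β → M) :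
    ∑ x ∈ A, G (f x) + ∑ x ∈ B, G (f x) = 2 • ∑ w ∈ W, G w := by
  have e : ∀ w ∈ W, (A.filter (fun x => f x = w)).card + (B.filter (fun x => f x = w)).card = 2 := by
    have h := (Finset.sum_eq_sum_iff_of_le (s := W)
      (f := fun w => (A.filter (fun x => f x = w)).card + (B.filter (fun x => f x = w)).card)
      (g := fun _ => 2) h2).1 ?_
    · exact h
    · rw [Finset.sum_add_distrib, ← Finset.card_eq_sum_card_fiberwise hA,
        ← Finset.card_eq_sum_card_fiberwise hB, hc]
      simp [mul_comm]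
  have hs : ∀ S : Finset α, (∀ x ∈ S, f x ∈ W) →
      ∑ x ∈ S, G (f x) = ∑ w ∈ W, (S.filter (fun x => f x = w)).card • G w := by
    intro S hS
    rw [← Finset.sum_fiberwise_of_maps_to hS]
    refine Finset.sum_congr rfl fun w _ => ?_
    rw [Finset.sum_congr rfl (g := fun _ => G w)]
    · simp
    · intro x hx
      rw [(Finset.mem_filter.1 hx).2]
  rw [hs A hA, hs B hB, ← Finset.sum_add_distrib, Finset.smul_sum]
  refine Finset.sum_congr rfl fun w hw => ?_
  rw [← add_smul, e w hw]

section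
variable {K : Type} [Field K] [Fintype K] [DecidableEq K]

theorem mem_EE {p : ℕ} {c x : K} : x ∈ EE p c ↔ x ^ (p + 1) = c := by simp [EE]

theorem card_pow_le (n : ℕ) (hn : 0 < n) (c : K) :
    (univ.filter (fun x : K => x ^ n = c)).card ≤ n := by
  calc (univ.filter (fun x : K => x ^ n = c)).card ≤ (nthRoots n c).toFinset.card := by
        refine Finset.card_le_card fun x hx => ?_
        rw [Multiset.mem_toFinset, mem_nthRoots hn]
        exact (Finset.mem_filter.1 hx).2
    _ ≤ Multiset.card (nthRoots n c) := Multiset.toFinset_card_le _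
    _ ≤ n := card_nthRoots n c

theorem frobsq {p : ℕ} (hcard : Fintype.card K = p ^ 2) (x : K) : (x ^ p) ^ p = x := by
  rw [← pow_mul, ← pow_two, ← hcard, FiniteField.pow_card]

/-- The norm fibres have `p+1` elements. -/
theorem card_EE {p : ℕ} (hp : 1 < p) (hcard : Fintype.card K = p ^ 2) {c : K} (hc : c ≠ 0)
    (hcp : c ^ p = c) : (EE p c).card = p + 1 := by
  classical
  set S : Finset K := univ.filter (fun x : K => x ^ (p - 1) = 1) with hS
  set N : Finset K := univ.filter (fun x : K => x ≠ 0) with hN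
  have hNc : N.card = p ^ 2 - 1 := by
    rw [hN, Finset.filter_ne' univ (0 : K), Finset.card_erase_of_mem (Finset.mem_univ _),
      Finset.card_univ, hcard]
  have fp : ∀ x : K, x ≠ 0 → x ^ p = x → x ^ (p - 1) = 1 := by
    intro x hx h
    have : x ^ (p - 1) * x = 1 * x := by
      rw [← pow_succ, Nat.sub_add_cancel hp.le, h, one_mul]
    exact mul_right_cancel₀ hx this
  have hmap : ∀ x ∈ N, x ^ (p + 1) ∈ S := by
    intro x hx
    have hx0 : x ≠ 0 := (Finset.mem_filter.1 hx).2
    rw [hS, Finset.mem_filter]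
    refine ⟨Finset.mem_univ _, fp _ (pow_ne_zero _ hx0) ?_⟩
    rw [pow_succ, mul_pow, frobsq hcard, mul_comm]
  have hSc : S.card ≤ p - 1 := card_pow_le (p - 1) (by omega) 1
  have hle : ∀ w ∈ S, (N.filter (fun x => x ^ (p + 1) = w)).card ≤ p + 1 := by
    intro w _
    refine le_trans (Finset.card_le_card ?_) (card_pow_le (p + 1) (by omega) w)
    intro x hx
    rw [Finset.mem_filter] at hx ⊢
    exact ⟨Finset.mem_univ _, hx.2⟩
  have hsum := Finset.card_eq_sum_card_fiberwise hmap
  have hpp : (p - 1) * (p + 1) = p ^ 2 - 1 := by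
    obtain ⟨q, rfl⟩ : ∃ q, p = q + 1 := ⟨p - 1, by omega⟩
    have : (q + 1) ^ 2 = q * (q + 2) + 1 := by ring
    rw [this]
    simp
  have heq : ∑ w ∈ S, (N.filter (fun x => x ^ (p + 1) = w)).card = ∑ _w ∈ S, (p + 1) := by
    refine le_antisymm (Finset.sum_le_sum hle) ?_
    rw [← hsum, hNc, ← hpp, Finset.sum_const, smul_eq_mul]
    exact Nat.mul_le_mul_right _ hSc
  have h := (Finset.sum_eq_sum_iff_of_le hle).1 heq c (by
    rw [hS, Finset.mem_filter]; exact ⟨Finset.mem_univ _, fp c hc hcp⟩)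
  rw [← h]
  congr 1
  ext x
  rw [mem_EE, Finset.mem_filter, hN, Finset.mem_filter]
  constructor
  · intro hx
    refine ⟨⟨Finset.mem_univ _, ?_⟩, hx⟩
    rintro rfl
    apply hc
    rw [← hx, zero_pow (by omega)]
  · exact fun hx => hx.2

/-- `T'`: `(t - a)^(p+1) = a (a - b)`. -/
def TQ (p : ℕ) (a b : K) : Finset K :=
  univ.filter (fun t => (t - a) ^ (p + 1) = a * (a - b))

theorem mem_TQ {p : ℕ} {a b t : K} : t ∈ TQ p a b ↔ (t - a) ^ (p + 1) = a * (a - b) := by
  simp [TQ]

theorem card_TQ {p : ℕ} [Fact p.Prime] [CharP K p] (hcard : Fintype.card K = p ^ 2) {a b : K}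
    (ha : a ^ p = a) (hb : b ^ p = b) (hab : a * b = -1) (hne : a ≠ b) :
    (TQ p a b).card = p + 1 := by
  have h0 : a ≠ 0 := by rintro rfl; rw [zero_mul] at hab; exact one_ne_zero (by linear_combination hab : (1 : K) = 0)
  rw [← card_EE (c := a * (a - b)) (Fact.out : p.Prime).one_lt hcard
    (mul_ne_zero h0 (sub_ne_zero.2 hne)) (by rw [mul_pow, sub_pow_char, ha, hb])]
  refine Finset.card_bij (fun t _ => t - a) ?_ ?_ ?_
  · intro t ht
    rw [mem_EE]; exact mem_TQ.1 ht
  · intro t _ t' _ h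
    exact sub_left_injective h
  · intro x hx
    exact ⟨x + a, by rw [mem_TQ, add_sub_cancel_right]; exact mem_EE.1 hx, by ring⟩


theorem two_le (A B : Finset K) (c d : K) (hA : ∀ t ∈ A, t ^ 2 + c * t + d = 0)
    (hB : ∀ t ∈ B, t ^ 2 + c * t + d = 0) (hI : ∀ t, t ∈ A → t ∈ B → 2 * t + c = 0) :
    A.card + B.card ≤ 2 := by
  have key : ∀ t t0 : K, t ^ 2 + c * t + d = 0 → t0 ^ 2 + c * t0 + d = 0 → t = t0 ∨ t = -c - t0 := by
    intro t t0 h h0
    have : (t - t0) * (t - (-c - t0)) = 0 := by linear_combination h - h0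
    rcases mul_eq_zero.1 this with h | h
    · exact Or.inl (sub_eq_zero.1 h)
    · exact Or.inr (sub_eq_zero.1 h)
  by_cases hd : ∃ t0, t0 ∈ A ∧ t0 ∈ B
  · obtain ⟨t0, h0A, h0B⟩ := hd
    have h2 := hI t0 h0A h0B
    have e : -c - t0 = t0 := by linear_combination -h2
    have hA1 : A ⊆ {t0} := by
      intro t ht
      rw [Finset.mem_singleton]
      rcases key t t0 (hA t ht) (hA t0 h0A) with h | h
      · exact h
      · rw [h, e]
    have hB1 : B ⊆ {t0} := by
      intro t ht
      rw [Finset.mem_singleton]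
      rcases key t t0 (hB t ht) (hA t0 h0A) with h | h
      · exact h
      · rw [h, e]
    have := Finset.card_le_card hA1
    have := Finset.card_le_card hB1
    simp only [Finset.card_singleton] at *
    omega
  · have hdis : Disjoint A B := by
      rw [Finset.disjoint_left]
      intro t h1 h2
      exact hd ⟨t, h1, h2⟩
    rw [← Finset.card_union_of_disjoint hdis]
    rcases (A ∪ B).eq_empty_or_nonempty with h | ⟨t0, h0⟩
    · rw [h]; simp
    · have hU : ∀ t ∈ A ∪ B, t ^ 2 + c * t + d = 0 := by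
        intro t ht
        rcases Finset.mem_union.1 ht with h | h
        · exact hA t h
        · exact hB t h
      have hsub : A ∪ B ⊆ {t0, -c - t0} := by
        intro t ht
        rw [Finset.mem_insert, Finset.mem_singleton]
        exact key t t0 (hU t ht) (hU t0 h0)
      exact (Finset.card_le_card hsub).trans Finset.card_le_two

section
variable {p : ℕ} [Fact p.Prime] [CharP K p] {a b : K} (hab : a * b = -1) (hne : a ≠ b)
  (ha : a ^ p = a) (hb : b ^ p = b)

include hab in
theorem a_ne : a ≠ 0 := by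
  rintro rfl
  rw [zero_mul] at hab
  exact one_ne_zero (by linear_combination hab : (1 : K) = 0)

include hab in
theorem b_ne : b ≠ 0 := by
  rintro rfl
  rw [mul_zero] at hab
  exact one_ne_zero (by linear_combination hab : (1 : K) = 0)

theorem T_eq {t : K} (ht : t ∈ EE p (-1 : K)) : t ^ p * t = -1 := by
  rw [← pow_succ]; exact mem_EE.1 ht

include ha in
theorem TQ_eq {t : K} (ht : t ∈ TQ p a b) : (t ^ p - a) * (t - a) = a * (a - b) := by
  have := mem_TQ.1 ht
  rw [pow_succ, sub_pow_char, ha] at this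
  exact this

theorem T_ne {t : K} (ht : t ∈ EE p (-1 : K)) : t ≠ 0 := by
  rintro rfl
  have := T_eq ht
  rw [mul_zero] at this
  exact one_ne_zero (by linear_combination this : (1 : K) = 0)

include hab hne hb in
theorem T_nb {t : K} (ht : t ∈ EE p (-1 : K)) : t - b ≠ 0 := by
  intro h
  have e : t = b := sub_eq_zero.1 h
  have := T_eq ht
  rw [e, hb] at this
  have h2 : b * (a - b) = 0 := by linear_combination hab - this
  rcases mul_eq_zero.1 h2 with h3 | h3
  · exact b_ne hab h3
  · exact hne (sub_eq_zero.1 h3)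

include hab hne ha in
theorem TQ_na {t : K} (ht : t ∈ TQ p a b) : t - a ≠ 0 := by
  intro h
  have := TQ_eq ha ht
  rw [h, mul_zero] at this
  rcases mul_eq_zero.1 this.symm with h3 | h3
  · exact a_ne hab h3
  · exact hne (sub_eq_zero.1 h3)

include hab hne ha hb in
theorem TQ_nb {t : K} (ht : t ∈ TQ p a b) : t - b ≠ 0 := by
  intro h
  have e : t = b := sub_eq_zero.1 h
  have := TQ_eq ha ht
  rw [e, hb] at this
  have h2 : b * (a - b) = 0 := by linear_combination -this
  rcases mul_eq_zero.1 h2 with h3 | h3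
  · exact b_ne hab h3
  · exact hne (sub_eq_zero.1 h3)

include hab ha in
theorem TQ_ne {t : K} (ht : t ∈ TQ p a b) : t ≠ 0 := by
  intro h
  have := TQ_eq ha ht
  rw [h, zero_pow (Fact.out : p.Prime).ne_zero] at this
  exact one_ne_zero (by linear_combination -this + hab : (1 : K) = 0)

include hab ha in
theorem TQ_prod {t : K} (ht : t ∈ TQ p a b) : t ^ p * t = a * (t ^ p + t - b) := by
  have := TQ_eq ha ht
  linear_combination this

include hab ha in
theorem TQ_prodb {t : K} (ht : t ∈ TQ p a b) :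
    (t ^ p - b) * (t - b) = (a - b) * (t ^ p + t - b) := by
  have := TQ_eq ha ht
  linear_combination this


include hb in
theorem ub {t : K} (h : t - b ≠ 0) : t ^ p - b ≠ 0 := by
  have : (t - b) ^ p = t ^ p - b := by rw [sub_pow_char, hb]
  rw [← this]
  exact pow_ne_zero _ h

include hab hne ha hb in
theorem f_T {t : K} (ht : t ∈ EE p (-1 : K)) :
    t * (t - a) / (t - b) ∈ EE p (a ^ 2) := by
  have h1 := T_eq ht
  have nb := T_nb hab hne hb ht
  have nb' := ub hb nb
  rw [mem_EE, pow_succ, div_pow, mul_pow, sub_pow_char, sub_pow_char, ha, hb, div_mul_div_comm,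
    div_eq_iff (mul_ne_zero nb' nb)]
  have e1 : (t ^ p - a) * (t - a) = a * (a + b - (t ^ p + t)) := by
    linear_combination h1 - hab
  have e2 : (t ^ p - b) * (t - b) = b * (a + b - (t ^ p + t)) := by
    linear_combination h1 - hab
  linear_combination (t ^ p * t) * e1 - a ^ 2 * e2 + a * (a + b - (t ^ p + t)) * (h1 - hab)

include hab hne ha hb in
theorem f_TQ {t : K} (ht : t ∈ TQ p a b) :
    t * (t - a) / (t - b) ∈ EE p (a ^ 2) := by
  have h1 := TQ_prod hab ha ht
  have h2 := TQ_prodb hab ha ht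
  have h3 := TQ_eq ha ht
  have nb := TQ_nb hab hne ha hb ht
  have nb' := ub hb nb
  rw [mem_EE, pow_succ, div_pow, mul_pow, sub_pow_char, sub_pow_char, ha, hb, div_mul_div_comm,
    div_eq_iff (mul_ne_zero nb' nb)]
  linear_combination (t ^ p * t) * h3 - a ^ 2 * h2 + a * (a - b) * h1

include hab hne ha hb in
theorem h_TQ {t : K} (ht : t ∈ TQ p a b) :
    (t - a) * (t - b) / t ∈ EE p ((a - b) ^ 2) := by
  have h1 := TQ_prod hab ha ht
  have h2 := TQ_prodb hab ha ht
  have h3 := TQ_eq ha ht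
  have n0 := TQ_ne hab ha ht
  have n0' : t ^ p ≠ 0 := pow_ne_zero _ n0
  rw [mem_EE, pow_succ, div_pow, mul_pow, sub_pow_char, sub_pow_char, ha, hb, div_mul_div_comm,
    div_eq_iff (mul_ne_zero n0' n0)]
  linear_combination ((t ^ p - b) * (t - b)) * h3 + a * (a - b) * h2 - (a - b) ^ 2 * h1

include hab hne ha hb in
theorem R1' (hcard : Fintype.card K = p ^ 2) (g : K → ZMod 5) :
    ∑ t ∈ EE p (-1 : K), g (t * (t - a) / (t - b)) + ∑ t ∈ TQ p a b, g (t * (t - a) / (t - b))
      = 2 * ∑ w ∈ EE p (a ^ 2), g w := by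
  have hp1 := (Fact.out : p.Prime).one_lt
  have hm1 : (-1 : K) ^ p = -1 := by
    have h := sub_pow_char (0 : K) (1 : K) (p := p)
    rw [zero_sub, zero_pow (Fact.out : p.Prime).ne_zero, one_pow, zero_sub] at h
    exact h
  have := cover (EE p (-1 : K)) (TQ p a b) (EE p (a ^ 2)) (fun t => t * (t - a) / (t - b))
    (fun t ht => f_T hab hne ha hb ht) (fun t ht => f_TQ hab hne ha hb ht) ?_ ?_ g
  · rw [two_smul, ← two_mul] at this
    exact this
  · intro w _
    refine two_le _ _ (-(a + w)) (w * b) ?_ ?_ ?_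
    · intro t ht
      obtain ⟨ht, hw⟩ := Finset.mem_filter.1 ht
      rw [div_eq_iff (T_nb hab hne hb ht)] at hw
      linear_combination hw
    · intro t ht
      obtain ⟨ht, hw⟩ := Finset.mem_filter.1 ht
      rw [div_eq_iff (TQ_nb hab hne ha hb ht)] at hw
      linear_combination hw
    · intro t ht ht'
      obtain ⟨ht, hw⟩ := Finset.mem_filter.1 ht
      obtain ⟨ht', -⟩ := Finset.mem_filter.1 ht'
      have nb := T_nb hab hne hb ht
      rw [div_eq_iff nb] at hw
      have h1 := T_eq ht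
      have h2 := TQ_prod hab ha ht'
      have h3 : a * (t ^ p + t - 2 * b) = 0 := by linear_combination h1 - h2 - hab
      have h4 : t ^ p + t - 2 * b = 0 := (mul_eq_zero.1 h3).resolve_left (a_ne hab)
      have h5 : (2 * t + -(a + w)) * (t - b) = 0 := by
        linear_combination hw + t * h4 - h1 + hab
      exact (mul_eq_zero.1 h5).resolve_right nb
  · rw [card_EE hp1 hcard (by simp) hm1, card_TQ hcard ha hb hab hne,
      card_EE hp1 hcard (pow_ne_zero _ (a_ne hab)) (by rw [← pow_mul, mul_comm, pow_mul, ha])]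
    ring

include hab hne ha hb in
theorem R3' (hcard : Fintype.card K = p ^ 2) (g : K → ZMod 5) :
    ∑ t ∈ TQ p a b, g ((t - a) * (t - b) / t) + ∑ t ∈ TQ p b a, g ((t - a) * (t - b) / t)
      = 2 * ∑ w ∈ EE p ((a - b) ^ 2), g w := by
  have hp1 := (Fact.out : p.Prime).one_lt
  have hba : b * a = -1 := by rw [mul_comm]; exact hab
  have := cover (TQ p a b) (TQ p b a) (EE p ((a - b) ^ 2)) (fun t => (t - a) * (t - b) / t)
    (fun t ht => h_TQ hab hne ha hb ht) ?_ ?_ ?_ g
  · rw [two_smul, ← two_mul] at this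
    exact this
  · intro t ht
    have := h_TQ hba hne.symm hb ha ht
    rw [show (a - b) ^ 2 = (b - a) ^ 2 by ring, mul_comm (t - a)]
    exact this
  · intro w _
    refine two_le _ _ (-(a + b + w)) (a * b) ?_ ?_ ?_
    · intro t ht
      obtain ⟨ht, hw⟩ := Finset.mem_filter.1 ht
      rw [div_eq_iff (TQ_ne hab ha ht)] at hw
      linear_combination hw
    · intro t ht
      obtain ⟨ht, hw⟩ := Finset.mem_filter.1 ht
      rw [div_eq_iff (TQ_ne hba hb ht)] at hw
      linear_combination hw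
    · intro t ht ht'
      obtain ⟨ht, hw⟩ := Finset.mem_filter.1 ht
      obtain ⟨ht', -⟩ := Finset.mem_filter.1 ht'
      have n0 := TQ_ne hab ha ht
      rw [div_eq_iff n0] at hw
      have h1 := TQ_prod hab ha ht
      have h2 := TQ_prodb hab ha ht
      have h3 := TQ_eq hb ht'
      have h4 : (a - b) * (t ^ p + t) = 0 := by linear_combination h3 - h2
      have h5 : t ^ p + t = 0 := (mul_eq_zero.1 h4).resolve_left (sub_ne_zero.2 hne)
      have h6 : (2 * t + -(a + b + w)) * t = 0 := by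
        linear_combination hw + (t - a) * h5 - h1
      exact (mul_eq_zero.1 h6).resolve_right n0
  · rw [card_TQ hcard ha hb hab hne, card_TQ hcard hb ha hba hne.symm,
      card_EE hp1 hcard (pow_ne_zero _ (sub_ne_zero.2 hne))
        (by rw [← pow_mul, mul_comm, pow_mul, sub_pow_char, ha, hb])]
    ring

end

end

end Q3h

open Finset Q3h

section
variable {K : Type} [Field K] [Fintype K] [DecidableEq K] {p z : ℕ} {ζ : K} {L : K → ZMod 5}

namespace Q3h

theorem two_ne (h : Ctx K p z ζ L) : (2 : K) ≠ 0 := by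
  intro h2
  have := h.hc
  have h3 : ((2 : ℕ) : K) = 0 := by exact_mod_cast h2
  rw [CharP.cast_eq_zero_iff K p] at h3
  have h4 := (Nat.prime_dvd_prime_iff_eq h.hp Nat.prime_two).mp h3
  have := h.hz
  omega

theorem five_ne (h : Ctx K p z ζ L) : (5 : K) ≠ 0 := by
  intro h2
  have := h.hc
  have h3 : ((5 : ℕ) : K) = 0 := by exact_mod_cast h2
  rw [CharP.cast_eq_zero_iff K p] at h3
  have h4 := (Nat.prime_dvd_prime_iff_eq h.hp Nat.prime_five).mp h3
  have := h.hz
  omega

theorem s_ne (h : Ctx K p z ζ L) {s : K} (hs : Sq p s) : s ≠ 0 := by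
  intro h0
  have := hs.sq
  rw [h0] at this
  exact five_ne h (by rw [← this]; simp)

theorem tq_mul (h : Ctx K p z ζ L) {s : K} (hs : Sq p s) : tq s * tq (-s) = -1 := by
  have h2 := two_ne h
  have h4 : (4 : K) ≠ 0 := by
    have : (4 : K) = 2 * 2 := by norm_num
    rw [this]; exact mul_ne_zero h2 h2
  unfold tq
  field_simp
  linear_combination (-25) * hs.sq

theorem tq_sub (h : Ctx K p z ζ L) (s : K) : tq s - tq (-s) = 5 * s := by
  have h2 := two_ne h
  unfold tq
  field_simp
  ring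

theorem neg_fr (h : Ctx K p z ζ L) {s : K} (hs : Sq p s) : (-s) ^ p = -s := by
  have := h.hc
  have : Fact p.Prime := ⟨h.hp⟩
  have h1 := sub_pow_char (0 : K) s (p := p)
  rw [zero_sub, zero_pow h.hp.ne_zero, hs.fr, zero_sub] at h1
  exact h1

theorem tq_frob (h : Ctx K p z ζ L) {s : K} (hs : s ^ p = s) : tq s ^ p = tq s := by
  have := h.hc
  have : Fact p.Prime := ⟨h.hp⟩
  have h1 : frobenius K p (tq s) = tq s := by
    unfold tq
    have h2 : frobenius K p s = s := hs
    rw [map_div₀, map_add, map_neg, map_mul, map_ofNat, map_ofNat, map_ofNat, h2]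
  exact h1

theorem TT_eq (h : Ctx K p z ζ L) (s : K) : TT p s = TQ p (tq s) (tq (-s)) := by
  unfold TT TQ
  rw [tq_sub h s]

theorem TT_eq' (h : Ctx K p z ζ L) (s : K) : TT p (-s) = TQ p (tq (-s)) (tq s) := by
  have := TT_eq h (-s)
  rwa [neg_neg] at this

theorem tq_ne_tq (h : Ctx K p z ζ L) {s : K} (hs : Sq p s) : tq s ≠ tq (-s) := by
  intro h1
  have h2 := tq_sub h s
  rw [h1, sub_self] at h2
  exact mul_ne_zero (five_ne h) (s_ne h hs) h2.symm

end Q3h

/-- The second torus has `p + 1` elements. -/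
theorem Ctx.card_TT' (h : Ctx K p z ζ L) {s : K} (hs : Sq p s) : (TT p s).card = p + 1 := by
  have := h.hc
  have : Fact p.Prime := ⟨h.hp⟩
  rw [TT_eq h s]
  exact card_TQ h.hK (tq_frob h hs.fr) (tq_frob h (neg_fr h hs)) (tq_mul h hs) (tq_ne_tq h hs)

theorem Ctx.R1 (h : Ctx K p z ζ L) {s : K} (hs : Sq p s) (_hcT : (TT p s).card = p + 1)
    (g : K → ZMod 5) :
    ∑ t ∈ EE p (-1), g (t * (t - tq s) / (t - tq (-s)))
      + ∑ t ∈ TT p s, g (t * (t - tq s) / (t - tq (-s)))
      = 2 * ∑ w ∈ EE p (tq s ^ 2), g w := by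
  have := h.hc
  have : Fact p.Prime := ⟨h.hp⟩
  rw [TT_eq h s]
  exact R1' (tq_mul h hs) (tq_ne_tq h hs) (tq_frob h hs.fr) (tq_frob h (neg_fr h hs)) h.hK g

theorem Ctx.R3 (h : Ctx K p z ζ L) {s : K} (hs : Sq p s) (_hcT : (TT p s).card = p + 1)
    (_hcT' : (TT p (-s)).card = p + 1) (g : K → ZMod 5) :
    ∑ t ∈ TT p s, g ((t - tq s) * (t - tq (-s)) / t)
      + ∑ t ∈ TT p (-s), g ((t - tq s) * (t - tq (-s)) / t)
      = 2 * ∑ w ∈ EE p 125, g w := by
  have := h.hc
  have : Fact p.Prime := ⟨h.hp⟩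
  rw [TT_eq h s, TT_eq' h s, R3' (tq_mul h hs) (tq_ne_tq h hs) (tq_frob h hs.fr)
    (tq_frob h (neg_fr h hs)) h.hK g, tq_sub h s,
    show (5 * s) ^ 2 = (125 : K) by rw [mul_pow, hs.sq]; norm_num]

end

end E8T5G
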