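import Pool.Agent.E8T5G.Q2

open Finset Polynomial

set_option linter.unusedSectionVars false

namespace E8T5G

variable {K : Type} [Field K] [Fintype K] [DecidableEq K] {p z : ℕ} {ζ : K} {L : K → ZMod 5}

theorem q4_mem_EE {ν e : K} : e ∈ EE p ν ↔ e ^ (p + 1) = ν := by
  simp [EE]

theorem q4_mem_TT {s t : K} : t ∈ TT p s ↔ (t - tq s) ^ (p + 1) = tq s * (5 * s) := by
  simp [TT]

theorem Ctx.q4_five_frob (h : Ctx K p z ζ L) : (5 : K) ^ p = 5 := by
  have := h.frob_nat 5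
  exact_mod_cast this

theorem Ctx.q4_mul_frob (_h : Ctx K p z ζ L) {x y : K} (hx : x ^ p = x) (hy : y ^ p = y) :
    (x * y) ^ p = x * y := by
  rw [mul_pow, hx, hy]

theorem Ctx.q4_nu_ne (h : Ctx K p z ζ L) {s : K} (hs : Sq p s) : tq s * (5 * s) ≠ 0 :=
  mul_ne_zero (h.tq_ne hs) (mul_ne_zero h.five_ne (h.s_ne hs))

theorem Ctx.card_TT (h : Ctx K p z ζ L) {s : K} (hs : Sq p s) : (TT p s).card = p + 1 := by
  have h1 : (EE p (tq s * (5 * s))).card = p + 1 :=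
    h.card_EE (h.q4_nu_ne hs) (h.q4_mul_frob (h.tq_frob hs) (h.q4_mul_frob h.q4_five_frob hs.fr))
  rw [← h1]
  refine Finset.card_nbij' (fun t => t - tq s) (fun e => e + tq s) ?_ ?_ ?_ ?_
  · intro t ht
    rw [Finset.mem_coe, q4_mem_TT] at ht
    rw [Finset.mem_coe, q4_mem_EE]
    exact ht
  · intro e he
    rw [Finset.mem_coe, q4_mem_EE] at he
    rw [Finset.mem_coe, q4_mem_TT, add_sub_cancel_right]
    exact he
  · intro t _
    simp
  · intro t _
    simp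

/-- the points of `T`. -/
theorem Ctx.T_ne (h : Ctx K p z ζ L) {s : K} (hs : Sq p s) {t : K} (ht : t ∈ EE p (-1)) :
    t ≠ 0 ∧ t - tq s ≠ 0 ∧ t - tq (-s) ≠ 0 ∧ t ^ p = -1 / t := by
  rw [q4_mem_EE] at ht
  have h0 : t ≠ 0 := by
    rintro rfl
    rw [zero_pow (Nat.succ_ne_zero p)] at ht
    have h1 : (1 : K) = 0 := by linear_combination ht
    exact one_ne_zero h1
  have hp : t ^ p = -1 / t := by
    rw [pow_succ] at ht
    field_simp
    linear_combination ht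
  have key : ∀ r : K, Sq p r → t - tq r ≠ 0 := by
    intro r hr hz
    have h1 : t = tq r := sub_eq_zero.mp hz
    have h3 : tq r ^ (p + 1) = -1 := by rw [← h1]; exact ht
    rw [pow_succ, h.tq_frob hr] at h3
    have h4 := h.tq_mul hr
    have h5 := h.tq_sub r
    have h6 : tq r * (5 * r) = 0 := by rw [← h5]; linear_combination h3 - h4
    exact h.q4_nu_ne hr h6
  exact ⟨h0, key s hs, key (-s) (h.sneg hs), hp⟩

theorem Ctx.q4_T_frob (h : Ctx K p z ζ L) {s : K} (hs : Sq p s) {t : K} (ht : t ∈ EE p (-1)) :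
    (t - tq s) ^ p = -(tq s) * (t - tq (-s)) / t := by
  obtain ⟨h0, _, _, hp⟩ := h.T_ne hs ht
  rw [h.frob_sub, hp, h.tq_frob hs]
  have := h.tq_mul hs
  field_simp
  linear_combination -this

theorem Ctx.T_log (h : Ctx K p z ζ L) {s : K} (hs : Sq p s) {t : K} (ht : t ∈ EE p (-1)) :
    L (t - tq (-s)) = L t - L (t - tq s) := by
  obtain ⟨h0, h1, h2, _⟩ := h.T_ne hs ht
  have h3 := h.L_frob h1
  rw [h.q4_T_frob hs ht, h.L_div (mul_ne_zero (neg_ne_zero.mpr (h.tq_ne hs)) h2) h0,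
    h.L_mul (neg_ne_zero.mpr (h.tq_ne hs)) h2, h.L_neg, h.L_fix (h.tq_ne hs) (h.tq_frob hs)] at h3
  linear_combination h3

/-- the points of `T'`. -/
theorem Ctx.TT_ne (h : Ctx K p z ζ L) {s : K} (hs : Sq p s) {t : K} (ht : t ∈ TT p s) :
    t ≠ 0 ∧ t - tq s ≠ 0 ∧ t - tq (-s) ≠ 0 ∧
      t ^ p = tq s * (t - tq (-s)) / (t - tq s) := by
  rw [q4_mem_TT] at ht
  have hnu := h.q4_nu_ne hs
  have hA := h.tq_ne hs
  have hB := h.tq_ne (h.sneg hs)
  have hAB := h.tq_sub s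
  have h1 : t - tq s ≠ 0 := by
    intro hz
    rw [hz, zero_pow (Nat.succ_ne_zero p)] at ht
    exact hnu ht.symm
  have hp : t ^ p = tq s * (t - tq (-s)) / (t - tq s) := by
    rw [pow_succ, h.frob_sub, h.tq_frob hs] at ht
    rw [eq_div_iff h1]
    linear_combination ht - tq s * hAB
  have h2 : t - tq (-s) ≠ 0 := by
    intro hz
    have h3 : t = tq (-s) := sub_eq_zero.mp hz
    have h4 : t ^ p = t := by rw [h3]; exact h.tq_frob (h.sneg hs)
    rw [hp, hz, mul_zero, zero_div] at h4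
    rw [← h4] at h3
    exact hB h3.symm
  have h0 : t ≠ 0 := by
    intro hz
    rw [hz, zero_pow h.hp.ne_zero, zero_sub, zero_sub] at hp
    rw [eq_div_iff (neg_ne_zero.mpr hA)] at hp
    have h5 : tq s * tq (-s) = 0 := by linear_combination hp
    rcases mul_eq_zero.mp h5 with h6 | h6
    · exact hA h6
    · exact hB h6
  exact ⟨h0, h1, h2, hp⟩

theorem Ctx.TT_log (h : Ctx K p z ζ L) {s : K} (hs : Sq p s) {t : K} (ht : t ∈ TT p s) :
    L t = L (t - tq s) - L (t - tq (-s)) := by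
  obtain ⟨h0, h1, h2, hp⟩ := h.TT_ne hs ht
  have h3 := h.L_frob h0
  rw [hp, h.L_div (mul_ne_zero (h.tq_ne hs) h2) h1, h.L_mul (h.tq_ne hs) h2,
    h.L_fix (h.tq_ne hs) (h.tq_frob hs)] at h3
  linear_combination h3

/-- the involution `t ↦ t- (t - t+)/(t - t-)`. -/
def q4sg (s t : K) : K := tq (-s) * (t - tq s) / (t - tq (-s))

theorem Ctx.q4_sg_sub1 (_h : Ctx K p z ζ L) {s t : K} (hv : t - tq (-s) ≠ 0) :
    q4sg s t - tq s = t * (tq (-s) - tq s) / (t - tq (-s)) := by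
  unfold q4sg
  field_simp
  ring

theorem Ctx.q4_sg_sub2 (_h : Ctx K p z ζ L) {s t : K} (hv : t - tq (-s) ≠ 0) :
    q4sg s t - tq (-s) = tq (-s) * (tq (-s) - tq s) / (t - tq (-s)) := by
  unfold q4sg
  field_simp
  ring

theorem Ctx.q4_d_ne (h : Ctx K p z ζ L) {s : K} (hs : Sq p s) : tq (-s) - tq s ≠ 0 := by
  intro h0
  have h1 := h.tq_sub s
  have h2 : (5 : K) * s = 0 := by linear_combination -h0 - h1
  rcases mul_eq_zero.mp h2 with h3 | h3
  · exact h.five_ne h3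
  · exact h.s_ne hs h3

theorem Ctx.q4_d_frob (h : Ctx K p z ζ L) {s : K} (hs : Sq p s) :
    (tq (-s) - tq s) ^ p = tq (-s) - tq s := by
  rw [h.frob_sub, h.tq_frob hs, h.tq_frob (h.sneg hs)]

theorem Ctx.q4_sg_mem (h : Ctx K p z ζ L) {s : K} (hs : Sq p s) {t : K} (ht : t ∈ EE p (-1)) :
    q4sg s t ∈ EE p (-1) := by
  obtain ⟨h0, hu, hv, _⟩ := h.T_ne hs ht
  have f1 := h.q4_T_frob hs ht
  have f2 := h.q4_T_frob (h.sneg hs) ht
  rw [neg_neg] at f2
  have hA := h.tq_ne hs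
  have hB := h.tq_ne (h.sneg hs)
  have h4 := h.tq_mul hs
  rw [q4_mem_EE]
  unfold q4sg
  rw [pow_succ, div_pow, mul_pow, f1, f2, h.tq_frob (h.sneg hs)]
  field_simp
  linear_combination h4

theorem Ctx.q4_sg_sg (h : Ctx K p z ζ L) {s : K} (hs : Sq p s) {t : K} (ht : t ∈ EE p (-1)) :
    q4sg s (q4sg s t) = t := by
  obtain ⟨_, _, hv, _⟩ := h.T_ne hs ht
  have hd := h.q4_d_ne hs
  have hB := h.tq_ne (h.sneg hs)
  have e1 := h.q4_sg_sub1 hv
  have e2 := h.q4_sg_sub2 hv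
  have : q4sg s (q4sg s t) = tq (-s) * (q4sg s t - tq s) / (q4sg s t - tq (-s)) := rfl
  rw [this, e1, e2]
  field_simp

/-- the involution of `T`. -/
theorem Ctx.T_inv (h : Ctx K p z ζ L) {s : K} (hs : Sq p s) (g : ZMod 5 → ZMod 5 → ZMod 5) :
    ∑ t ∈ EE p (-1), g (L t) (L (t - tq s))
      = ∑ t ∈ EE p (-1), g (2 * L (t - tq s) - L t) (L (t - tq s)) := by
  refine Finset.sum_nbij' (q4sg s) (q4sg s) ?_ ?_ ?_ ?_ ?_
  · intro t ht
    exact h.q4_sg_mem hs ht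
  · intro t ht
    exact h.q4_sg_mem hs ht
  · intro t ht
    exact h.q4_sg_sg hs ht
  · intro t ht
    exact h.q4_sg_sg hs ht
  · intro t ht
    obtain ⟨h0, hu, hv, _⟩ := h.T_ne hs ht
    have hd := h.q4_d_ne hs
    have hB := h.tq_ne (h.sneg hs)
    have hlog := h.T_log hs ht
    have e1 : L (q4sg s t) = 2 * L (t - tq s) - L t := by
      unfold q4sg
      rw [h.L_div (mul_ne_zero hB hu) hv, h.L_mul hB hu, h.L_fix hB (h.tq_frob (h.sneg hs)), hlog]
      ring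
    have e2 : L (q4sg s t - tq s) = L (t - tq s) := by
      rw [h.q4_sg_sub1 hv, h.L_div (mul_ne_zero h0 hd) hv, h.L_mul h0 hd, h.L_fix hd (h.q4_d_frob hs),
        hlog]
      ring
    rw [e1, e2]
    congr 1
    ring

theorem Ctx.q4_inv_mem (h : Ctx K p z ζ L) {s : K} (hs : Sq p s) {t : K} (ht : t ∈ TT p s) :
    -1 / t ∈ TT p s := by
  obtain ⟨h0, hu, hv, hp⟩ := h.TT_ne hs ht
  have hA := h.tq_ne hs
  have h4 := h.tq_mul hs
  have h5 := h.tq_sub s
  have hn : (-1 : K) ^ p = -1 := by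
    rw [h.frob_neg, one_pow]
  rw [q4_mem_TT, pow_succ, h.frob_sub, h.tq_frob hs, div_pow, hn, hp, ← h5]
  field_simp
  linear_combination (-(tq s) * (1 + tq s * t) + t * (tq s * t + 1) + t * (tq s ^ 2 + 1)
    - t * (tq s * tq (-s) + 1)) * h4

/-- the involution of `T'`. -/
theorem Ctx.TT_inv (h : Ctx K p z ζ L) {s : K} (hs : Sq p s) (g : ZMod 5 → ZMod 5 → ZMod 5) :
    ∑ t ∈ TT p s, g (L (t - tq s)) (L (t - tq (-s)))
      = ∑ t ∈ TT p s, g (2 * L (t - tq (-s)) - L (t - tq s)) (L (t - tq (-s))) := by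
  refine Finset.sum_nbij' (fun t => -1 / t) (fun t => -1 / t) ?_ ?_ ?_ ?_ ?_
  · intro t ht
    exact h.q4_inv_mem hs ht
  · intro t ht
    exact h.q4_inv_mem hs ht
  · intro t ht
    obtain ⟨h0, _⟩ := h.TT_ne hs ht
    field_simp
  · intro t ht
    obtain ⟨h0, _⟩ := h.TT_ne hs ht
    field_simp
  · intro t ht
    obtain ⟨h0, hu, hv, _⟩ := h.TT_ne hs ht
    have hA := h.tq_ne hs
    have hB := h.tq_ne (h.sneg hs)
    have hlog := h.TT_log hs ht
    have h4 := h.tq_mul hs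
    have e1 : L (-1 / t - tq s) = 2 * L (t - tq (-s)) - L (t - tq s) := by
      have e : -1 / t - tq s = -(tq s * (t - tq (-s)) / t) := by
        field_simp
        linear_combination -h4
      rw [e, h.L_neg, h.L_div (mul_ne_zero hA hv) h0, h.L_mul hA hv, h.L_fix hA (h.tq_frob hs),
        hlog]
      ring
    have e2 : L (-1 / t - tq (-s)) = L (t - tq (-s)) := by
      have e : -1 / t - tq (-s) = -(tq (-s) * (t - tq s) / t) := by
        field_simp
        linear_combination -h4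
      rw [e, h.L_neg, h.L_div (mul_ne_zero hB hu) h0, h.L_mul hB hu,
        h.L_fix hB (h.tq_frob (h.sneg hs)), hlog]
      ring
    rw [e1, e2]
    congr 1
    ring

end E8T5G
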