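import Pool.Agent.E8T5G.Q4

open Finset Polynomial

set_option linter.unusedSectionVars false

namespace E8T5G

variable {K : Type} [Field K] [Fintype K] [DecidableEq K] {p z : ℕ} {ζ : K} {L : K → ZMod 5}

theorem Ctx.eta_ne (h : Ctx K p z ζ L) {s η : K} (hs : Sq p s) (hη : η ^ 5 = s) : η ≠ 0 := by
  rintro rfl
  have := h.s_ne hs
  rw [← hη] at this
  simp at this

/-- `5 s` is not `t+` -/
theorem Ctx.tq_ne_5s (h : Ctx K p z ζ L) {s : K} (hs : Sq p s) : tq s ≠ 5 * s := by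
  intro h0
  have h2 := h.two_ne
  have h1 : -11 = 5 * s := by
    unfold tq at h0
    field_simp at h0
    linear_combination h0
  have h3 : (4 : K) = 0 := by
    have h4 : (5 * s) ^ 2 = 125 := by linear_combination 25 * hs.sq
    rw [← h1] at h4
    linear_combination -h4
  have h5 : (2 : K) * 2 = 0 := by linear_combination h3
  rcases mul_eq_zero.1 h5 with h6 | h6 <;> exact h2 h6

theorem Ctx.La_ne (h : Ctx K p z ζ L) {s η : K} (hs : Sq p s) (hη : η ^ 5 = s)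
    (j : ℕ) : 1 - ph s * ζ ^ j * η ^ 3 ≠ 0 := by
  intro h0
  have h1 : ph s * ζ ^ j * η ^ 3 = 1 := (sub_eq_zero.1 h0).symm
  have h2 : ph s ^ 5 * (5 * s) = 1 := by
    have h3 : (ph s * ζ ^ j * η ^ 3) ^ 5 = ph s ^ 5 * (ζ ^ 5) ^ j * (η ^ 5) ^ 3 := by ring
    rw [h1, one_pow, h.hζ, one_pow, hη] at h3
    linear_combination -h3 - ph s ^ 5 * s * hs.sq
  have h4 := h.ph_tq hs
  apply h.tq_ne_5s hs
  linear_combination tq s * h2 * (-1) + 5 * s * h4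

theorem Ctx.La_conj (h : Ctx K p z ζ L) {s η : K} (hs : Sq p s) (hη : η ^ 5 = s) (hf : η ^ p = η)
    (j : ℕ) : L (1 - ph s * ζ ^ (4 * j) * η ^ 3) = - L (1 - ph s * ζ ^ j * η ^ 3) := by
  rw [← h.L_frob (h.La_ne hs hη j)]
  congr 1
  rw [h.frob_sub, one_pow, mul_pow, mul_pow, h.ph_frob hs, ← pow_mul ζ j p, mul_comm j p, pow_mul ζ p j,
    h.frob_zeta, ← pow_mul η 3 p, mul_comm 3 p, pow_mul η p 3, hf, ← pow_mul ζ 4 j]

/-- the fifth root of `t+ 5 s` -/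
def mu (s η : K) : K := (ph s)⁻¹ * η ^ 3

theorem Ctx.mu_ne (h : Ctx K p z ζ L) {s η : K} (hs : Sq p s) (hη : η ^ 5 = s) : mu s η ≠ 0 :=
  mul_ne_zero (inv_ne_zero (h.ph_ne hs)) (pow_ne_zero 3 (h.eta_ne hs hη))

theorem Ctx.mu_frob (h : Ctx K p z ζ L) {s η : K} (hs : Sq p s) (hf : η ^ p = η) :
    mu s η ^ p = mu s η := by
  unfold mu
  rw [mul_pow, inv_pow, h.ph_frob hs, ← pow_mul, mul_comm 3 p, pow_mul, hf]

theorem Ctx.mu_pow (h : Ctx K p z ζ L) {s η : K} (hs : Sq p s) (hη : η ^ 5 = s) :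
    mu s η ^ 5 = tq s * (5 * s) := by
  have h1 := h.ph_tq hs
  have h2 := h.ph_ne hs
  unfold mu
  have h3 : ((ph s)⁻¹) ^ 5 = tq s := by
    rw [inv_pow]
    exact inv_eq_of_mul_eq_one_right h1
  have h4 : ((ph s)⁻¹ * η ^ 3) ^ 5 = ((ph s)⁻¹) ^ 5 * (η ^ 5) ^ 3 := by ring
  rw [h4, h3, hη]
  linear_combination tq s * s * hs.sq

theorem Ctx.TT_sum (h : Ctx K p z ζ L) {s η : K} (hs : Sq p s) (hη : η ^ 5 = s) (f : K → ZMod 5) :
    ∑ t ∈ TT p s, f (t - tq s) = ∑ e ∈ EE p (mu s η ^ 5), f e := by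
  refine Finset.sum_nbij' (fun t => t - tq s) (fun e => e + tq s) ?_ ?_ ?_ ?_ ?_
  · intro t ht
    rw [q4_mem_TT] at ht
    rw [q4_mem_EE, h.mu_pow hs hη]
    exact ht
  · intro e he
    rw [q4_mem_EE, h.mu_pow hs hη] at he
    rw [q4_mem_TT, add_sub_cancel_right]
    exact he
  · intro t _
    simp
  · intro t _
    simp
  · intro t _
    rfl

/-- pure sums over `T'`. -/
theorem Ctx.TT_pure (h : Ctx K p z ζ L) {s η : K} (hs : Sq p s) (hη : η ^ 5 = s) (hf : η ^ p = η)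
    (g : ZMod 5 → ZMod 5) :
    ∑ t ∈ TT p s, g (L (t - tq s)) = z * ∑ l : ZMod 5, g l := by
  rw [h.TT_sum hs hη fun e => g (L e)]
  exact h.sum_g (h.mu_ne hs hη) (h.mu_frob hs hf) g

/-- sums over the classes of `T'`. -/
theorem Ctx.TT_lin (h : Ctx K p z ζ L) {s η : K} (hs : Sq p s) (hη : η ^ 5 = s) (hf : η ^ p = η)
    (g : ZMod 5 → ZMod 5) :
    ∑ t ∈ TT p s, g (L (t - tq s)) * L (t - tq (-s))
      = ∑ l : ZMod 5, g l * (l * z + L (1 - ph s * ζ ^ (3 * l.val) * η ^ 3)) := by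
  have e1 : ∀ t : K, L (t - tq (-s)) = L (-(5 * s) - (t - tq s)) := by
    intro t
    have h1 := h.tq_sub s
    rw [← h.L_neg (-(5 * s) - (t - tq s))]
    congr 1
    linear_combination h1
  have e2 : ∑ t ∈ TT p s, g (L (t - tq s)) * L (t - tq (-s))
      = ∑ t ∈ TT p s, g (L (t - tq s)) * L (-(5 * s) - (t - tq s)) :=
    Finset.sum_congr rfl fun t _ => by rw [e1]
  rw [e2, h.TT_sum hs hη fun e => g (L e) * L (-(5 * s) - e), h.sum_lin (h.mu_ne hs hη) (h.mu_frob hs hf)]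
  · refine Finset.sum_congr rfl fun l _ => ?_
    congr 1
    have hη0 := h.eta_ne hs hη
    have hφ := h.ph_ne hs
    -- `(-5 s)^z = η^6`
    have h1 : (-(5 * s)) ^ z = η ^ 6 := by
      have h2 : -(5 * s) = (-η ^ 3) ^ 5 := by
        have h3 : (-η ^ 3) ^ 5 = -(η ^ 5) ^ 3 := by ring
        rw [h3, hη]
        linear_combination s * hs.sq
      rw [h2, ← pow_mul, ← h.hz, pow_succ, h.frob_neg, ← pow_mul, mul_comm 3 p, pow_mul, hf]
      ring
    have h4 : η ^ 6 - ζ ^ (2 * l.val) * mu s η =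
        -(η ^ 3 * (ph s)⁻¹ * (ζ ^ (2 * l.val) * (1 - ph s * ζ ^ (3 * l.val) * η ^ 3))) := by
      have h5 : ζ ^ (2 * l.val) * ζ ^ (3 * l.val) = 1 := by
        rw [← pow_add, show 2 * l.val + 3 * l.val = 5 * l.val by ring, pow_mul, h.hζ, one_pow]
      have h6 : (ph s)⁻¹ * ph s = 1 := inv_mul_cancel₀ hφ
      unfold mu
      linear_combination (-(η ^ 6)) * h5 - η ^ 6 * ζ ^ (2 * l.val) * ζ ^ (3 * l.val) * h6
    have n1 := h.La_ne hs hη (3 * l.val)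
    have n2 : ζ ^ (2 * l.val) ≠ 0 := pow_ne_zero _ h.ζ_ne
    have n3 : η ^ 3 * (ph s)⁻¹ ≠ 0 := mul_ne_zero (pow_ne_zero 3 hη0) (inv_ne_zero hφ)
    have h7 : (η ^ 3 * (ph s)⁻¹) ^ p = η ^ 3 * (ph s)⁻¹ := by
      rw [mul_pow, inv_pow, h.ph_frob hs, ← pow_mul, mul_comm 3 p, pow_mul, hf]
    rw [h1, h4, h.L_neg, h.L_mul n3 (mul_ne_zero n2 n1), h.L_fix n3 h7, h.L_mul n2 n1, h.L_pow h.ζ_ne,
      h.L_zeta, zero_add]
    push_cast
    rw [ZMod.natCast_zmod_val]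
    have h5 : (5 : ZMod 5) = 0 := by decide
    linear_combination l * z * h5
  · intro h0
    have h1 : tq (-s) ∈ TT p s := by
      rw [q4_mem_TT, ← h.mu_pow hs hη, ← h0]
      congr 1
      linear_combination -(h.tq_sub s)
    exact (h.TT_ne hs h1).2.2.1 (sub_self _)

end E8T5G
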