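import Pool.Agent.E8T5G.Q3
import Pool.Agent.E8T5G.Q5

open Finset Polynomial

namespace E8T5G

variable {K : Type} [Field K] [Fintype K] [DecidableEq K] {p z : ℕ} {ζ : K} {L : K → ZMod 5}

/-- the solution set. -/
noncomputable def NN (p : ℕ) (s : K) : Finset K := by
  classical exact (EE p (-1)).filter fun t => ∃ y, y ^ 5 = t * (t - tq s)

theorem z5_sub (a : ZMod 5) : (if a = 0 then (1 : ZMod 5) else 0) = 1 - a ^ 4 := by
  revert a; decide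

theorem sum_pow4 : ∑ l : ZMod 5, l ^ 4 = -1 := by decide

theorem sum_pow2 : ∑ l : ZMod 5, l ^ 2 = 0 := by decide

theorem sum_one' : ∑ _l : ZMod 5, (1 : ZMod 5) = 0 := by decide

section lin

omit [Field K] [Fintype K] [DecidableEq K] in
/-- The moment algebra for an involution `(x, y) ↦ (2 y - x, y)`. -/
theorem inv_algebra {S : Finset K} {X Y : K → ZMod 5}
    (hinv : ∀ g : ZMod 5 → ZMod 5 → ZMod 5,
      ∑ t ∈ S, g (X t) (Y t) = ∑ t ∈ S, g (2 * Y t - X t) (Y t)) :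
    ∑ t ∈ S, X t * Y t ^ 3 = ∑ t ∈ S, Y t ^ 4 ∧
    ∑ t ∈ S, X t ^ 2 * Y t ^ 2 = - ∑ t ∈ S, Y t ^ 4 + 2 * ∑ t ∈ S, X t ^ 3 * Y t := by
  have e1 : ∑ t ∈ S, X t ^ 4 = ∑ t ∈ S, (2 * Y t - X t) ^ 4 := hinv fun x _ => x ^ 4
  have e2 : ∑ t ∈ S, X t ^ 3 * Y t = ∑ t ∈ S, (2 * Y t - X t) ^ 3 * Y t :=
    hinv fun x y => x ^ 3 * y
  have f1 : ∑ t ∈ S, (2 * Y t - X t) ^ 4 = 16 * ∑ t ∈ S, Y t ^ 4 - 32 * ∑ t ∈ S, X t * Y t ^ 3
      + 24 * ∑ t ∈ S, X t ^ 2 * Y t ^ 2 - 8 * ∑ t ∈ S, X t ^ 3 * Y t + ∑ t ∈ S, X t ^ 4 := by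
    simp only [Finset.mul_sum]
    rw [← Finset.sum_sub_distrib, ← Finset.sum_add_distrib, ← Finset.sum_sub_distrib,
      ← Finset.sum_add_distrib]
    exact Finset.sum_congr rfl fun t _ => by ring
  have f2 : ∑ t ∈ S, (2 * Y t - X t) ^ 3 * Y t = 8 * ∑ t ∈ S, Y t ^ 4
      - 12 * ∑ t ∈ S, X t * Y t ^ 3
      + 6 * ∑ t ∈ S, X t ^ 2 * Y t ^ 2 - ∑ t ∈ S, X t ^ 3 * Y t := by
    simp only [Finset.mul_sum]
    rw [← Finset.sum_sub_distrib, ← Finset.sum_add_distrib, ← Finset.sum_sub_distrib]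
    exact Finset.sum_congr rfl fun t _ => by ring
  rw [f1] at e1
  rw [f2] at e2
  have e1' : 16 * ∑ t ∈ S, Y t ^ 4 - 32 * ∑ t ∈ S, X t * Y t ^ 3
      + 24 * ∑ t ∈ S, X t ^ 2 * Y t ^ 2 - 8 * ∑ t ∈ S, X t ^ 3 * Y t = 0 := by
    linear_combination -e1
  clear e1
  generalize ∑ t ∈ S, Y t ^ 4 = a04 at *
  generalize ∑ t ∈ S, X t * Y t ^ 3 = a13 at *
  generalize ∑ t ∈ S, X t ^ 2 * Y t ^ 2 = a22 at *
  generalize ∑ t ∈ S, X t ^ 3 * Y t = a31 at *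
  clear f1 f2 hinv
  revert e1' e2
  revert a04 a13 a22 a31
  decide

omit [Field K] [Fintype K] [DecidableEq K] in
/-- Quadratic version. -/
theorem inv_algebra2 {S : Finset K} {X Y : K → ZMod 5}
    (hinv : ∀ g : ZMod 5 → ZMod 5 → ZMod 5,
      ∑ t ∈ S, g (X t) (Y t) = ∑ t ∈ S, g (2 * Y t - X t) (Y t)) :
    ∑ t ∈ S, Y t ^ 2 = ∑ t ∈ S, X t * Y t := by
  have e1 : ∑ t ∈ S, X t ^ 2 = ∑ t ∈ S, (2 * Y t - X t) ^ 2 := hinv fun x _ => x ^ 2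
  have f1 : ∑ t ∈ S, (2 * Y t - X t) ^ 2 = 4 * ∑ t ∈ S, Y t ^ 2 - 4 * ∑ t ∈ S, X t * Y t
      + ∑ t ∈ S, X t ^ 2 := by
    simp only [Finset.mul_sum]
    rw [← Finset.sum_sub_distrib, ← Finset.sum_add_distrib]
    exact Finset.sum_congr rfl fun t _ => by ring
  rw [f1] at e1
  generalize ∑ t ∈ S, Y t ^ 2 = a at *
  generalize ∑ t ∈ S, X t * Y t = b at *
  generalize ∑ t ∈ S, X t ^ 2 = c at *
  clear f1 hinv
  revert e1
  revert a b c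
  decide

omit [Field K] [Fintype K] [DecidableEq K] in
theorem sum4_add {S : Finset K} (X Y : K → ZMod 5) :
    ∑ t ∈ S, (X t + Y t) ^ 4 = ∑ t ∈ S, X t ^ 4 + 4 * ∑ t ∈ S, X t ^ 3 * Y t
      + 6 * ∑ t ∈ S, X t ^ 2 * Y t ^ 2 + 4 * ∑ t ∈ S, X t * Y t ^ 3 + ∑ t ∈ S, Y t ^ 4 := by
  simp only [Finset.mul_sum]
  rw [← Finset.sum_add_distrib, ← Finset.sum_add_distrib, ← Finset.sum_add_distrib,
      ← Finset.sum_add_distrib]
  exact Finset.sum_congr rfl fun t _ => by ring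

omit [Field K] [Fintype K] [DecidableEq K] in
theorem sum4_sub {S : Finset K} (X Y : K → ZMod 5) :
    ∑ t ∈ S, (2 * (X t - Y t)) ^ 4 = ∑ t ∈ S, X t ^ 4 - 4 * ∑ t ∈ S, X t ^ 3 * Y t
      + 6 * ∑ t ∈ S, X t ^ 2 * Y t ^ 2 - 4 * ∑ t ∈ S, X t * Y t ^ 3 + ∑ t ∈ S, Y t ^ 4 := by
  simp only [Finset.mul_sum]
  rw [← Finset.sum_sub_distrib, ← Finset.sum_add_distrib, ← Finset.sum_sub_distrib,
      ← Finset.sum_add_distrib]
  refine Finset.sum_congr rfl fun t _ => ?_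
  have h16 : (16 : ZMod 5) = 1 := by decide
  linear_combination (X t - Y t) ^ 4 * h16

omit [Field K] [Fintype K] [DecidableEq K] in
theorem sum2_sub {S : Finset K} (X Y : K → ZMod 5) :
    ∑ t ∈ S, (2 * (X t - Y t)) ^ 2 = 4 * ∑ t ∈ S, X t ^ 2 - 8 * ∑ t ∈ S, X t * Y t
      + 4 * ∑ t ∈ S, Y t ^ 2 := by
  simp only [Finset.mul_sum]
  rw [← Finset.sum_sub_distrib, ← Finset.sum_add_distrib]
  exact Finset.sum_congr rfl fun t _ => by ring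

omit [Field K] [Fintype K] [DecidableEq K] in
theorem sum4_two {S : Finset K} (Y : K → ZMod 5) :
    ∑ t ∈ S, (2 * Y t) ^ 4 = ∑ t ∈ S, Y t ^ 4 := by
  refine Finset.sum_congr rfl fun t _ => ?_
  have h16 : (16 : ZMod 5) = 1 := by decide
  linear_combination (Y t) ^ 4 * h16

omit [Field K] [Fintype K] [DecidableEq K] in
theorem sum2_two {S : Finset K} (Y : K → ZMod 5) :
    ∑ t ∈ S, (2 * Y t) ^ 2 = 4 * ∑ t ∈ S, Y t ^ 2 := by
  simp only [Finset.mul_sum]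
  exact Finset.sum_congr rfl fun t _ => by ring

end lin

theorem Ctx.sum_gT (h : Ctx K p z ζ L) (g : ZMod 5 → ZMod 5) :
    ∑ t ∈ EE p (-1 : K), g (L t) = z * ∑ l : ZMod 5, g l := by
  have h1 := h.odd
  have := h.sum_g (μ := -1) (by simp) (h1.neg_one_pow) g
  rwa [show (-1 : K) ^ 5 = -1 by norm_num] at this

theorem Ctx.card_T0 (h : Ctx K p z ζ L) : ∑ _t ∈ EE p (-1 : K), (1 : ZMod 5) = 0 := by
  rw [h.sum_gT fun _ => 1, sum_one', mul_zero]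

/-- `N` in terms of the fourth moment. -/
theorem Ctx.NN_sum (h : Ctx K p z ζ L) {s : K} (hs : Sq p s) :
    ((NN p s).card : ZMod 5) = - ∑ t ∈ EE p (-1 : K), (L t + L (t - tq s)) ^ 4 := by
  classical
  have h1 : ((NN p s).card : ZMod 5) =
      ∑ t ∈ EE p (-1 : K), (if L t + L (t - tq s) = 0 then (1 : ZMod 5) else 0) := by
    rw [Finset.sum_boole]
    congr 2
    unfold NN
    refine Finset.filter_congr fun t ht => ?_
    obtain ⟨h0, h1, -, -⟩ := h.T_ne hs ht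
    rw [← h.L_zero_iff (mul_ne_zero h0 h1), h.L_mul h0 h1]
  rw [h1, Finset.sum_congr rfl fun t _ => z5_sub _, Finset.sum_sub_distrib, h.card_T0, zero_sub]

/-- `W` sums. -/
theorem Ctx.sum_W (h : Ctx K p z ζ L) {s : K} (hs : Sq p s) (g : ZMod 5 → ZMod 5) :
    ∑ w ∈ EE p (tq s ^ 2), g (L w) = z * ∑ l : ZMod 5, g l := by
  have hφ := h.ph_ne hs
  have h1 : tq s ^ 2 = ((ph s ^ 2)⁻¹) ^ 5 := by
    have := h.ph_tq hs
    field_simp
    linear_combination (ph s ^ 5 * tq s + 1) * this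
  rw [h1]
  refine h.sum_g (inv_ne_zero (pow_ne_zero 2 hφ)) ?_ g
  rw [inv_pow, ← pow_mul, mul_comm, pow_mul, h.ph_frob hs]

theorem Ctx.sum_W125 (h : Ctx K p z ζ L) {s η : K} (hs : Sq p s) (hη : η ^ 5 = s)
    (hf : η ^ p = η) (g : ZMod 5 → ZMod 5) :
    ∑ w ∈ EE p (125 : K), g (L w) = z * ∑ l : ZMod 5, g l := by
  have h0 : η ≠ 0 := h.eta_ne hs hη
  have h1 : (125 : K) = (η ^ 6) ^ 5 := by
    have : (η ^ 6) ^ 5 = (η ^ 5) ^ 6 := by ring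
    rw [this, hη]
    have h2 := hs.sq
    linear_combination (-1) * (s ^ 4 + 5 * s ^ 2 + 25) * h2
  rw [h1]
  refine h.sum_g (pow_ne_zero 6 h0) ?_ g
  rw [← pow_mul, mul_comm, pow_mul, hf]

theorem Ctx.L_f_T (h : Ctx K p z ζ L) {s : K} (hs : Sq p s) {t : K} (ht : t ∈ EE p (-1)) :
    L (t * (t - tq s) / (t - tq (-s))) = 2 * L (t - tq s) := by
  obtain ⟨h0, h1, h2, -⟩ := h.T_ne hs ht
  rw [h.L_div (mul_ne_zero h0 h1) h2, h.L_mul h0 h1, h.T_log hs ht]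
  ring

theorem Ctx.L_f_TT (h : Ctx K p z ζ L) {s : K} (hs : Sq p s) {t : K} (ht : t ∈ TT p s) :
    L (t * (t - tq s) / (t - tq (-s))) = 2 * (L (t - tq s) - L (t - tq (-s))) := by
  obtain ⟨h0, h1, h2, -⟩ := h.TT_ne hs ht
  rw [h.L_div (mul_ne_zero h0 h1) h2, h.L_mul h0 h1, h.TT_log hs ht]
  ring

theorem Ctx.L_h_TT (h : Ctx K p z ζ L) {s : K} (hs : Sq p s) {t : K} (ht : t ∈ TT p s) :
    L ((t - tq s) * (t - tq (-s)) / t) = 2 * L (t - tq (-s)) := by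
  obtain ⟨h0, h1, h2, -⟩ := h.TT_ne hs ht
  rw [h.L_div (mul_ne_zero h1 h2) h0, h.L_mul h1 h2, h.TT_log hs ht]
  ring

theorem Ctx.R1' (h : Ctx K p z ζ L) {s : K} (hs : Sq p s) (g : ZMod 5 → ZMod 5) :
    ∑ t ∈ EE p (-1 : K), g (2 * L (t - tq s))
      + ∑ t ∈ TT p s, g (2 * (L (t - tq s) - L (t - tq (-s)))) = 2 * (z * ∑ l : ZMod 5, g l) := by
  have h1 := h.R1 hs (h.card_TT hs) fun w => g (L w)
  rw [h.sum_W hs] at h1
  have e1 : ∑ t ∈ EE p (-1 : K), g (L (t * (t - tq s) / (t - tq (-s))))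
      = ∑ t ∈ EE p (-1 : K), g (2 * L (t - tq s)) :=
    Finset.sum_congr rfl fun t ht => by rw [h.L_f_T hs ht]
  have e2 : ∑ t ∈ TT p s, g (L (t * (t - tq s) / (t - tq (-s))))
      = ∑ t ∈ TT p s, g (2 * (L (t - tq s) - L (t - tq (-s)))) :=
    Finset.sum_congr rfl fun t ht => by rw [h.L_f_TT hs ht]
  rw [← e1, ← e2]
  exact h1

theorem Ctx.R3' (h : Ctx K p z ζ L) {s η : K} (hs : Sq p s) (hη : η ^ 5 = s)
    (hf : η ^ p = η) (g : ZMod 5 → ZMod 5) :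
    ∑ t ∈ TT p s, g (2 * L (t - tq (-s)))
      + ∑ t ∈ TT p (-s), g (2 * L (t - tq s)) = 2 * (z * ∑ l : ZMod 5, g l) := by
  have hs' := h.sneg hs
  have h1 := h.R3 hs (h.card_TT hs) (h.card_TT hs') fun w => g (L w)
  rw [h.sum_W125 hs hη hf] at h1
  have e1 : ∑ t ∈ TT p s, g (L ((t - tq s) * (t - tq (-s)) / t))
      = ∑ t ∈ TT p s, g (2 * L (t - tq (-s))) :=
    Finset.sum_congr rfl fun t ht => by rw [h.L_h_TT hs ht]
  have e2 : ∑ t ∈ TT p (-s), g (L ((t - tq s) * (t - tq (-s)) / t))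
      = ∑ t ∈ TT p (-s), g (2 * L (t - tq s)) :=
    Finset.sum_congr rfl fun t ht => by
      have h2 := h.L_h_TT hs' ht
      rw [neg_neg] at h2
      rw [mul_comm (t - tq s), h2]
  rw [← e1, ← e2]
  exact h1

/-- The moments of `T`. -/
theorem Ctx.T_moments (h : Ctx K p z ζ L) {s : K} (hs : Sq p s) :
    ∑ t ∈ EE p (-1 : K), (L t + L (t - tq s)) ^ 4 = - (z : ZMod 5)
      + ∑ t ∈ EE p (-1 : K), L t ^ 3 * L (t - tq s) - ∑ t ∈ EE p (-1 : K), L (t - tq s) ^ 4 ∧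
    ∑ t ∈ EE p (-1 : K), (2 * (L t - L (t - tq s))) ^ 4 = - (z : ZMod 5)
      + 3 * ∑ t ∈ EE p (-1 : K), L t ^ 3 * L (t - tq s) + ∑ t ∈ EE p (-1 : K), L (t - tq s) ^ 4 ∧
    ∑ t ∈ EE p (-1 : K), L (t - tq s) ^ 2 = ∑ t ∈ EE p (-1 : K), L t * L (t - tq s) := by
  have h40 : ∑ t ∈ EE p (-1 : K), L t ^ 4 = - (z : ZMod 5) := by
    rw [h.sum_gT fun x => x ^ 4, sum_pow4]; ring
  obtain ⟨h13, h22⟩ := inv_algebra (S := EE p (-1 : K)) (X := L) (Y := fun t => L (t - tq s))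
    (h.T_inv hs)
  have h02 := inv_algebra2 (S := EE p (-1 : K)) (X := L) (Y := fun t => L (t - tq s))
    (h.T_inv hs)
  refine ⟨?_, ?_, h02⟩
  · rw [sum4_add, h40, h22, h13]
    generalize ∑ t ∈ EE p (-1 : K), L (t - tq s) ^ 4 = a
    generalize ∑ t ∈ EE p (-1 : K), L t ^ 3 * L (t - tq s) = b
    generalize (z : ZMod 5) = c
    revert a b c; decide
  · rw [sum4_sub, h40, h22, h13]
    generalize ∑ t ∈ EE p (-1 : K), L (t - tq s) ^ 4 = a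
    generalize ∑ t ∈ EE p (-1 : K), L t ^ 3 * L (t - tq s) = b
    generalize (z : ZMod 5) = c
    revert a b c; decide

/-- the quadratic moment changes sign with `s`. -/
theorem Ctx.b1_neg (h : Ctx K p z ζ L) {s : K} (hs : Sq p s) :
    ∑ t ∈ EE p (-1 : K), L t * L (t - tq (-s)) = - ∑ t ∈ EE p (-1 : K), L t * L (t - tq s) := by
  have e1 : ∑ t ∈ EE p (-1 : K), L t * L (t - tq (-s)) =
      ∑ t ∈ EE p (-1 : K), (L t ^ 2 - L t * L (t - tq s)) :=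
    Finset.sum_congr rfl fun t ht => by rw [h.T_log hs ht]; ring
  rw [e1, Finset.sum_sub_distrib, h.sum_gT fun x => x ^ 2, sum_pow2, mul_zero, zero_sub]

/-- The moments of `T'`. -/
theorem Ctx.TT_moments (h : Ctx K p z ζ L) {s η : K} (hs : Sq p s) (hη : η ^ 5 = s)
    (hf : η ^ p = η) :
    ∑ t ∈ TT p s, (2 * (L (t - tq s) - L (t - tq (-s)))) ^ 4
      = - (z : ZMod 5) + 3 * ∑ t ∈ TT p s, L (t - tq s) ^ 3 * L (t - tq (-s))
        + ∑ t ∈ TT p s, L (t - tq (-s)) ^ 4 ∧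
    ∑ t ∈ TT p s, (2 * (L (t - tq s) - L (t - tq (-s)))) ^ 2
      = ∑ t ∈ TT p s, L (t - tq s) * L (t - tq (-s)) := by
  have h40 : ∑ t ∈ TT p s, L (t - tq s) ^ 4 = - (z : ZMod 5) := by
    rw [h.TT_pure hs hη hf fun x => x ^ 4, sum_pow4]; ring
  have h20 : ∑ t ∈ TT p s, L (t - tq s) ^ 2 = 0 := by
    rw [h.TT_pure hs hη hf fun x => x ^ 2, sum_pow2, mul_zero]
  obtain ⟨h13, h22⟩ := inv_algebra (S := TT p s) (X := fun t => L (t - tq s))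
    (Y := fun t => L (t - tq (-s))) (h.TT_inv hs)
  have h02 := inv_algebra2 (S := TT p s) (X := fun t => L (t - tq s))
    (Y := fun t => L (t - tq (-s))) (h.TT_inv hs)
  refine ⟨?_, ?_⟩
  · rw [sum4_sub, h40, h22, h13]
    generalize ∑ t ∈ TT p s, L (t - tq (-s)) ^ 4 = a
    generalize ∑ t ∈ TT p s, L (t - tq s) ^ 3 * L (t - tq (-s)) = b
    generalize (z : ZMod 5) = c
    revert a b c; decide
  · rw [sum2_sub, h20, h02]
    generalize ∑ t ∈ TT p s, L (t - tq s) * L (t - tq (-s)) = a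
    revert a; decide

/-- `Λ`. -/
def La (L : K → ZMod 5) (ζ s η : K) (j : ℕ) : ZMod 5 := L (1 - ph s * ζ ^ j * η ^ 3)

omit [DecidableEq K] in
theorem Ctx.La_mod (h : Ctx K p z ζ L) (s η : K) (j : ℕ) : La L ζ s η j = La L ζ s η (j % 5) := by
  unfold La
  rw [pow_eq_pow_mod j h.hζ]

/-- The value of the third moment. -/
theorem Ctx.A_val (h : Ctx K p z ζ L) {s η : K} (hs : Sq p s) (hη : η ^ 5 = s)
    (hf : η ^ p = η) :
    ∑ t ∈ TT p s, L (t - tq s) ^ 3 * L (t - tq (-s)) =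
      - (z : ZMod 5) + 3 * La L ζ s η 2 + La L ζ s η 1 ∧
    ∑ t ∈ TT p s, L (t - tq s) * L (t - tq (-s)) = 3 * La L ζ s η 2 - La L ζ s η 1 := by
  have e1 : ∑ t ∈ TT p s, L (t - tq s) ^ 3 * L (t - tq (-s))
      = ∑ l : ZMod 5, l ^ 3 * (l * z + La L ζ s η (3 * l.val)) := h.TT_lin hs hη hf fun x => x ^ 3
  have e2 : ∑ t ∈ TT p s, L (t - tq s) * L (t - tq (-s))
      = ∑ l : ZMod 5, l * (l * z + La L ζ s η (3 * l.val)) := h.TT_lin hs hη hf fun x => x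
  have c1 : La L ζ s η 4 = - La L ζ s η 1 := h.La_conj hs hη hf 1
  have c2 : La L ζ s η 3 = - La L ζ s η 2 := by
    have h8 : La L ζ s η 8 = - La L ζ s η 2 := h.La_conj hs hη hf 2
    rwa [h.La_mod s η 8] at h8
  have m : ∀ j, La L ζ s η j = La L ζ s η (j % 5) := h.La_mod s η
  have m1 : La L ζ s η (3 * (1 : ZMod 5).val) = La L ζ s η 3 := by rw [m]; rfl
  have m2 : La L ζ s η (3 * (2 : ZMod 5).val) = La L ζ s η 1 := by rw [m]; rfl
  have m3 : La L ζ s η (3 * (3 : ZMod 5).val) = La L ζ s η 4 := by rw [m]; rfl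
  have m4 : La L ζ s η (3 * (4 : ZMod 5).val) = La L ζ s η 2 := by rw [m]; rfl
  have hsum : ∀ f : ZMod 5 → ZMod 5, ∑ l, f l = f 0 + f 1 + f 2 + f 3 + f 4 :=
    fun f => Fin.sum_univ_five f
  rw [e1, e2, hsum, hsum, m1, m2, m3, m4, c1, c2]
  generalize La L ζ s η 2 = b
  generalize La L ζ s η 1 = a
  generalize La L ζ s η (3 * (0 : ZMod 5).val) = c
  generalize (z : ZMod 5) = d
  constructor
  · have h5 : (5 : ZMod 5) = 0 := by decide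
    linear_combination (71 * d + 12 * b - 4 * a) * h5
  · have h5 : (5 : ZMod 5) = 0 := by decide
    linear_combination (6 * d) * h5

/-- The third moment. -/
theorem Ctx.A_La (h : Ctx K p z ζ L) {s η : K} (hs : Sq p s) (hη : η ^ 5 = s)
    (hf : η ^ p = η) :
    ∑ t ∈ TT p s, L (t - tq s) ^ 3 * L (t - tq (-s)) =
      - (z : ZMod 5) + La L ζ s η 2 - ∑ t ∈ EE p (-1 : K), L t * L (t - tq s) := by
  obtain ⟨hA, hB⟩ := h.A_val hs hη hf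
  have hR : ∑ t ∈ EE p (-1 : K), (2 * L (t - tq s)) ^ 2
      + ∑ t ∈ TT p s, (2 * (L (t - tq s) - L (t - tq (-s)))) ^ 2 = 2 * (z * ∑ l : ZMod 5, l ^ 2) :=
    h.R1' hs fun x => x ^ 2
  rw [sum2_two, (h.T_moments hs).2.2, (h.TT_moments hs hη hf).2, hB, sum_pow2, mul_zero, mul_zero] at hR
  rw [hA]
  generalize La L ζ s η 2 = b at *
  generalize La L ζ s η 1 = a at *
  generalize ∑ t ∈ EE p (-1 : K), L t * L (t - tq s) = c at *
  generalize (z : ZMod 5) = d at *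
  clear hA hB
  have h5 : (5 : ZMod 5) = 0 := by decide
  linear_combination b * h5 + c * h5 - hR

theorem Ctx.main_sum (h : Ctx K p z ζ L) {s η : K} (hs : Sq p s) (hη : η ^ 5 = s)
    (hf : η ^ p = η) :
    ((NN p s).card : ZMod 5) = 2 * z + La L ζ s η 2 + La L ζ (-s) (-η) 2 := by
  have hs' := h.sneg hs
  have hη' : (-η) ^ 5 = -s := by rw [← hη]; ring
  have hf' : (-η) ^ p = -η := by rw [h.frob_neg, hf]
  have hT := h.T_moments hs
  have hM := (h.TT_moments hs hη hf).1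
  have hM' := (h.TT_moments hs' hη' hf').1
  rw [neg_neg] at hM'
  rw [h.A_La hs hη hf] at hM
  have hA' := h.A_La hs' hη' hf'
  rw [neg_neg, h.b1_neg hs] at hA'
  rw [hA'] at hM'
  have r1 : ∑ t ∈ EE p (-1 : K), (2 * L (t - tq s)) ^ 4
      + ∑ t ∈ TT p s, (2 * (L (t - tq s) - L (t - tq (-s)))) ^ 4 = 2 * (z * ∑ l : ZMod 5, l ^ 4) :=
    h.R1' hs fun x => x ^ 4
  have r2 : ∑ t ∈ EE p (-1 : K), (2 * L (t - tq (-s))) ^ 4
      + ∑ t ∈ TT p (-s), (2 * (L (t - tq (-s)) - L (t - tq s))) ^ 4 = 2 * (z * ∑ l : ZMod 5, l ^ 4) := by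
    have := h.R1' hs' fun x => x ^ 4
    rwa [neg_neg] at this
  have r3 : ∑ t ∈ TT p s, (2 * L (t - tq (-s))) ^ 4
      + ∑ t ∈ TT p (-s), (2 * L (t - tq s)) ^ 4 = 2 * (z * ∑ l : ZMod 5, l ^ 4) :=
    h.R3' hs hη hf fun x => x ^ 4
  have r2' : ∑ t ∈ EE p (-1 : K), (2 * L (t - tq (-s))) ^ 4
      = ∑ t ∈ EE p (-1 : K), (2 * (L t - L (t - tq s))) ^ 4 :=
    Finset.sum_congr rfl fun t ht => by rw [h.T_log hs ht]
  rw [sum4_two, hM, sum_pow4] at r1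
  rw [r2', hT.2.1, hM', sum_pow4] at r2
  rw [sum4_two, sum4_two, sum_pow4] at r3
  rw [h.NN_sum hs, hT.1]
  generalize La L ζ s η 2 = a at *
  generalize La L ζ (-s) (-η) 2 = a' at *
  generalize ∑ t ∈ EE p (-1 : K), L (t - tq s) ^ 4 = b at *
  generalize ∑ t ∈ EE p (-1 : K), L t ^ 3 * L (t - tq s) = b3 at *
  generalize ∑ t ∈ EE p (-1 : K), L t * L (t - tq s) = b1 at *
  generalize ∑ t ∈ TT p s, L (t - tq (-s)) ^ 4 = u at *
  generalize ∑ t ∈ TT p (-s), L (t - tq s) ^ 4 = u' at *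
  generalize (z : ZMod 5) = d at *
  clear hT hM hM' hA' r2'
  have h5 : (5 : ZMod 5) = 0 := by decide
  linear_combination 3 * r1 + 3 * r2 - 3 * r3 + (4 * d - 2 * b3 - b - 2 * a - 2 * a') * h5

/-- The element `γ`. -/
theorem Ctx.main_gamma (h : Ctx K p z ζ L) {s η : K} (hs : Sq p s) (hη : η ^ 5 = s)
    (hf : η ^ p = η) :
    ((NN p s).card : ZMod 5)
      = L (ζ ^ 4 * ((1 - ph s * ζ ^ 2 * η ^ 3) * (ph s - ζ ^ 2 * η ^ 3))) := by
  have hs' := h.sneg hs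
  have hη' : (-η) ^ 5 = -s := by rw [← hη]; ring
  have hf' : (-η) ^ p = -η := by rw [h.frob_neg, hf]
  have hφ := h.ph_ne hs
  have e : ph s - ζ ^ 2 * η ^ 3 = ph s * (1 - ph (-s) * ζ ^ 2 * (-η) ^ 3) := by
    linear_combination (-1) * ζ ^ 2 * η ^ 3 * h.ph_mul hs
  have n1 := h.La_ne hs hη 2
  have n2 := h.La_ne hs' hη' 2
  have h5 : (5 : ZMod 5) = 0 := by decide
  rw [h.main_sum hs hη hf, e, h.L_mul (pow_ne_zero 4 h.ζ_ne) (mul_ne_zero n1 (mul_ne_zero hφ n2)),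
    h.L_mul n1 (mul_ne_zero hφ n2), h.L_mul hφ n2,
    h.L_fix hφ (h.ph_frob hs), zero_add, h.L_pow h.ζ_ne, h.L_zeta]
  unfold La
  push_cast
  linear_combination (-2 * (z : ZMod 5)) * h5

end E8T5G
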