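import Mathlib

/-!
# [E8T5G-Q7] the unit `1 + ζ⁴ θ³ - ζ² θ⁴`, `θ⁵ = 5`
-/

set_option autoImplicit false

namespace E8T5G

/-- `(1 - φ ζ² η³) (φ - ζ² η³) = φ (1 + ζ⁴ θ³ - ζ² θ⁴)` for `η = √5 / θ²` -/
theorem gamma_unit {K : Type*} [Field K] (h2 : (2 : K) ≠ 0) (h5 : (5 : K) ≠ 0) {s θ ζ : K} (hs : s ^ 2 = 5)
    (hθ : θ ^ 5 = 5) :
    (1 - (1 + s) / 2 * ζ ^ 2 * (s / θ ^ 2) ^ 3) * ((1 + s) / 2 - ζ ^ 2 * (s / θ ^ 2) ^ 3) =
      (1 + s) / 2 * (1 + ζ ^ 4 * θ ^ 3 - ζ ^ 2 * θ ^ 4) := by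
  have hθ0 : θ ≠ 0 := by
    rintro rfl
    apply h5
    rw [← hθ]
    simp
  have h1 : (s / θ ^ 2) ^ 3 = s * θ ^ 4 / 5 := by
    field_simp
    linear_combination (5 * s) * hs - (s * (θ ^ 5 + 5)) * hθ
  have h4 : (s * θ ^ 4 / 5) ^ 2 = θ ^ 3 := by
    field_simp
    linear_combination θ ^ 5 * hs + 5 * hθ
  have h5' : (1 + ((1 + s) / 2) ^ 2) * (s * θ ^ 4 / 5) = (1 + s) / 2 * θ ^ 4 := by
    field_simp
    linear_combination (2 + s) * hs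
  rw [h1]
  linear_combination ((1 + s) / 2 * ζ ^ 4) * h4 - ζ ^ 2 * h5'

/-- a fifth power residue: elements of the prime field are trivial -/
theorem fix_pow {K : Type*} [Field K] {p : ℕ} (hp : 5 ∣ p + 1) {x : K} (hx : x ≠ 0) (hf : x ^ p = x) :
    x ^ ((p ^ 2 - 1) / 5) = 1 := by
  obtain ⟨k, hk⟩ := hp
  obtain ⟨j, rfl⟩ : ∃ j, p = j + 1 := by
    rcases Nat.eq_zero_or_pos p with rfl | h
    · omega
    · exact ⟨p - 1, by omega⟩
  have h1 : x ^ j = 1 := by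
    rw [pow_succ] at hf
    exact mul_right_cancel₀ hx (by rw [hf, one_mul])
  have h2 : ((j + 1) ^ 2 - 1) / 5 = j * k := by
    have h3 : (j + 1) ^ 2 - 1 = 5 * (j * k) := by
      have : (j + 1) ^ 2 = 5 * (j * k) + 1 := by
        have h4 : 5 * (j * k) = j * (5 * k) := by ring
        rw [h4, ← hk]
        ring
      omega
    rw [h3, Nat.mul_div_cancel_left _ (by norm_num)]
  rw [h2, pow_mul, h1, one_pow]

/-- from `γ` to the unit -/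
theorem unit_of_gamma {K : Type*} [Field K] {p N : ℕ} (hc : CharP K p) (hp : 5 ∣ p + 1) (h2 : (2 : K) ≠ 0)
    (h5 : (5 : K) ≠ 0) {s θ ζ : K} (hs : s ^ 2 = 5) (hsf : s ^ p = s) (hθ : θ ^ 5 = 5)
    (hpr : p.Prime)
    (hg : ((1 - (1 + s) / 2 * ζ ^ 2 * (s / θ ^ 2) ^ 3) * ((1 + s) / 2 - ζ ^ 2 * (s / θ ^ 2) ^ 3)) ^
      ((p ^ 2 - 1) / 5) = ζ ^ N) :
    (1 + ζ ^ 4 * θ ^ 3 - ζ ^ 2 * θ ^ 4) ^ ((p ^ 2 - 1) / 5) = ζ ^ N := by
  have := hc
  have : Fact p.Prime := ⟨hpr⟩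
  have : ExpChar K p := ExpChar.prime hpr
  have hφ0 : (1 + s) / 2 ≠ 0 := by
    intro h
    have h3 : s = -1 := by
      have : (1 + s) / 2 * 2 = 0 := by rw [h, zero_mul]
      rw [div_mul_cancel₀ _ h2] at this
      linear_combination this
    have h4 : (4 : K) = 0 := by
      rw [h3] at hs
      linear_combination -hs
    apply h2
    have h6 : (2 : K) * 2 = 0 := by linear_combination h4
    rcases mul_eq_zero.1 h6 with h7 | h7 <;> exact h7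
  have hφf : ((1 + s) / 2) ^ p = (1 + s) / 2 := by
    rw [div_pow, add_pow_char, one_pow, hsf]
    congr 1
    have := map_natCast (frobenius K p) 2
    simpa [frobenius_def] using this
  rw [gamma_unit h2 h5 hs hθ, mul_pow, fix_pow hp hφ0 hφf, one_mul] at hg
  exact hg

end E8T5G
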