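import Pool.Agent.E8T5G.Q6
import Pool.Agent.E8T5G.Q7

/-!
# [E8T5G] the quintic law for all primes `p ≡ 4 mod 5`
-/

open Finset Polynomial

namespace E8T5G

/-- The number of `t` with `t ^ (p + 1) = -1` and `t (t - (-11 + 5 s) / 2)` a fifth power. -/
noncomputable def Nq {K : Type} [Field K] (p : ℕ) (s : K) : ℕ :=
  Nat.card {t : K // t ^ (p + 1) = -1 ∧ ∃ z : K, z ^ 5 = t * (t - (-11 + 5 * s) / 2)}

theorem charP_of_card {K : Type} [Field K] [Fintype K] {p : ℕ} (hp : p.Prime)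
    (hK : Fintype.card K = p ^ 2) : CharP K p := by
  obtain ⟨q, hq⟩ := CharP.exists K
  obtain ⟨n, hqp, hn⟩ := FiniteField.card K q
  have h1 : q ∣ p ^ 2 := by
    rw [← hK, hn]
    exact dvd_pow_self q n.pos.ne'
  have h2 := (Nat.prime_dvd_prime_iff_eq hqp hp).mp (hqp.dvd_of_dvd_pow h1)
  rw [← h2]; exact hq

theorem exists_ctx {K : Type} [Field K] [Fintype K] {p z : ℕ} (hp : p.Prime) (hz : p + 1 = 5 * z)
    (hK : Fintype.card K = p ^ 2) {ζ : K} (hζ : ζ ^ 5 = 1) (hζ1 : ζ ≠ 1) :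
    ∃ L : K → ZMod 5, Ctx K p z ζ L := by
  classical
  have hN : p ^ 2 - 1 = 5 * ((p ^ 2 - 1) / 5) := by
    have h1 : p ^ 2 - 1 = 5 * (z * (p - 1)) := by
      have h2 := hp.two_le
      obtain ⟨q, rfl⟩ : ∃ q, p = q + 1 := ⟨p - 1, by omega⟩
      simp only [Nat.add_sub_cancel]
      have h3 : (q + 1) ^ 2 = (q + 1 + 1) * q + 1 := by ring
      rw [h3, hz, Nat.add_sub_cancel]; ring
    omega
  have hr : IsPrimitiveRoot ζ 5 := by
    have : Fact (Nat.Prime 5) := ⟨by norm_num⟩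
    have ho : orderOf ζ = 5 := orderOf_eq_prime hζ hζ1
    have := IsPrimitiveRoot.orderOf ζ
    rwa [ho] at this
  have key : ∀ x : K, ∃ a : ZMod 5, x ≠ 0 → x ^ ((p ^ 2 - 1) / 5) = ζ ^ a.val := by
    intro x
    by_cases hx : x = 0
    · exact ⟨0, fun h => absurd hx h⟩
    · have h1 : (x ^ ((p ^ 2 - 1) / 5)) ^ 5 = 1 := by
        rw [← pow_mul, mul_comm, ← hN, ← hK]
        exact FiniteField.pow_card_sub_one_eq_one x hx
      obtain ⟨i, hi, hi2⟩ := hr.eq_pow_of_pow_eq_one h1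
      refine ⟨(i : ZMod 5), fun _ => ?_⟩
      rw [ZMod.val_natCast, Nat.mod_eq_of_lt hi, hi2]
  choose L hL using key
  exact ⟨L, ⟨hp, hz, hK, charP_of_card hp hK, hζ, hζ1, hL⟩⟩

theorem cyc {K : Type} [Field K] {ζ : K} (hζ : ζ ^ 5 = 1) (hζ1 : ζ ≠ 1) :
    1 + ζ + ζ ^ 2 + ζ ^ 3 + ζ ^ 4 = 0 := by
  have h1 : (ζ - 1) * (1 + ζ + ζ ^ 2 + ζ ^ 3 + ζ ^ 4) = 0 := by linear_combination hζ
  rcases mul_eq_zero.mp h1 with h | h
  · exact absurd (sub_eq_zero.mp h) hζ1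
  · exact h

theorem Ctx.sfr {K : Type} [Field K] [Fintype K] {p z : ℕ} {ζ : K} {L : K → ZMod 5}
    (h : Ctx K p z ζ L) {s : K} (hs : s ^ 2 = 5) : Sq p s := by
  classical
  refine ⟨hs, ?_⟩
  have hc := cyc h.hζ h.hζ1
  have h5 := h.hζ
  have hu : (2 * (ζ + ζ ^ 4) + 1) ^ p = 2 * (ζ + ζ ^ 4) + 1 := by
    have h2 : (2 : K) ^ p = 2 := by exact_mod_cast h.frob_nat 2
    rw [h.frob_add, mul_pow, h.frob_add, one_pow, h2, ← pow_mul, mul_comm 4 p, pow_mul,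
      h.frob_zeta]
    linear_combination 2 * (ζ * (ζ ^ 10 + ζ ^ 5 + 1)) * h5
  have hsq : (2 * (ζ + ζ ^ 4) + 1) ^ 2 = 5 := by
    linear_combination 4 * hc + (4 * ζ ^ 3 + 8) * h5
  have h0 : (s - (2 * (ζ + ζ ^ 4) + 1)) * (s + (2 * (ζ + ζ ^ 4) + 1)) = 0 := by
    linear_combination hs - hsq
  rcases mul_eq_zero.mp h0 with h1 | h1
  · rw [sub_eq_zero.mp h1]; exact hu
  · rw [eq_neg_of_add_eq_zero_left h1, h.frob_neg, hu]

theorem NN_card {K : Type} [Field K] [Fintype K] [DecidableEq K] (p : ℕ) (s : K) :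
    (NN p s).card = Nq p s := by
  classical
  unfold Nq NN EE tq
  rw [Nat.card_eq_fintype_card, Fintype.card_subtype]
  congr 1
  ext t
  simp

/-- **The law for `N`, all primes `p ≡ 4 mod 5`.** -/
theorem final {p : ℕ} (hp : p.Prime) (h5p : 5 ∣ p + 1) {K : Type} [Field K]
    (hK : Nat.card K = p ^ 2) {s ζ θ : K} (hs : s ^ 2 = 5) (hζ : ζ ^ 5 = 1) (hζ1 : ζ ≠ 1)
    (hθ : θ ^ 5 = 5) (hθp : θ ^ p = θ) :
    (ζ ^ 4 + ζ ^ 3 * θ ^ 3 - ζ * θ ^ 4) ^ ((p ^ 2 - 1) / 5) = ζ ^ Nq p s := by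
  classical
  have hfin : Finite K := Nat.finite_of_card_ne_zero (by rw [hK]; exact pow_ne_zero 2 hp.ne_zero)
  have := Fintype.ofFinite K
  obtain ⟨z, hz⟩ := h5p
  rw [Nat.card_eq_fintype_card] at hK
  obtain ⟨L, h⟩ := exists_ctx hp hz hK hζ hζ1
  have hS := h.sfr hs
  have hθ0 : θ ≠ 0 := by
    rintro rfl
    rw [zero_pow (by norm_num)] at hθ
    exact h.five_ne hθ.symm
  have hη : (s / θ ^ 2) ^ 5 = s := by
    rw [div_pow]
    rw [div_eq_iff (pow_ne_zero 5 (pow_ne_zero 2 hθ0))]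
    linear_combination s * (s ^ 2 + 5) * hs - s * (θ ^ 5 + 5) * hθ
  have hf : (s / θ ^ 2) ^ p = s / θ ^ 2 := by
    rw [div_pow, hS.fr, ← pow_mul, mul_comm, pow_mul, hθp]
  have hmain := h.main_gamma hS hη hf
  have n1 : 1 - ph s * ζ ^ 2 * (s / θ ^ 2) ^ 3 ≠ 0 := h.La_ne hS hη 2
  have n2 : ph s - ζ ^ 2 * (s / θ ^ 2) ^ 3 ≠ 0 := by
    have hS' := h.sneg hS
    have hη' : (-(s / θ ^ 2)) ^ 5 = -s := by
      have : (-(s / θ ^ 2)) ^ 5 = -((s / θ ^ 2) ^ 5) := by ring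
      rw [this, hη]
    have n3 := h.La_ne hS' hη' 2
    have hφ := h.ph_ne hS
    have e : ph s - ζ ^ 2 * (s / θ ^ 2) ^ 3
        = ph s * (1 - ph (-s) * ζ ^ 2 * (-(s / θ ^ 2)) ^ 3) := by
      linear_combination (-1) * ζ ^ 2 * (s / θ ^ 2) ^ 3 * h.ph_mul hS
    rw [e]
    exact mul_ne_zero hφ n3
  have hg := h.hL _ (mul_ne_zero (pow_ne_zero 4 h.ζ_ne) (mul_ne_zero n1 n2))
  rw [← hmain, zpow_nat hζ, NN_card] at hg
  have hgu : (1 - ph s * ζ ^ 2 * (s / θ ^ 2) ^ 3) * (ph s - ζ ^ 2 * (s / θ ^ 2) ^ 3) =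
      ph s * (1 + ζ ^ 4 * θ ^ 3 - ζ ^ 2 * θ ^ 4) := gamma_unit h.two_ne h.five_ne hs hθ
  rw [hgu, mul_pow, mul_pow, fix_pow ⟨z, hz⟩ (h.ph_ne hS) (h.ph_frob hS), one_mul, ← mul_pow] at hg
  rw [← hg]
  congr 1
  linear_combination (-(ζ ^ 3 * θ ^ 3) + ζ * θ ^ 4) * hζ

/-- **The law, in terms of any fifth root `x` of `5`.** -/
theorem law {p : ℕ} (hp : p.Prime) (h5p : 5 ∣ p + 1) {K : Type} [Field K]
    (hK : Nat.card K = p ^ 2) {s x : K} (hs : s ^ 2 = 5) (hx : x ^ 5 = 5) :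
    (x ^ 3 - 5 * x ^ 2 + 5 * x) ^ ((p ^ 2 - 1) / 5) * x ^ ((p - 1) * Nq p s) = 1 := by
  classical
  have hfin : Finite K := Nat.finite_of_card_ne_zero (by rw [hK]; exact pow_ne_zero 2 hp.ne_zero)
  have := Fintype.ofFinite K
  have hK' := hK
  rw [Nat.card_eq_fintype_card] at hK'
  have hc : CharP K p := charP_of_card hp hK'
  have hpf : Fact p.Prime := ⟨hp⟩
  have hexp : ExpChar K p := ExpChar.prime hp
  have hp2 := hp.two_le
  have hp5 : p ≠ 5 := by rintro rfl; omega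
  have hp2' : p ≠ 2 := by rintro rfl; omega
  have c5 : (5 : K) ≠ 0 := by
    intro h0
    have h1 : ((5 : ℕ) : K) = 0 := by exact_mod_cast h0
    have h2 := (CharP.cast_eq_zero_iff K p 5).mp h1
    exact hp5 ((Nat.prime_dvd_prime_iff_eq hp (by norm_num)).mp h2)
  have f5 : (5 : K) ^ p = 5 := by
    have := map_natCast (frobenius K p) 5
    simpa [frobenius_def] using this
  have hx0 : x ≠ 0 := by
    rintro rfl
    rw [zero_pow (by norm_num)] at hx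
    exact c5 hx.symm
  have hfr : (x ^ p) ^ p = x := by
    rw [← pow_mul, ← sq, ← hK']
    exact FiniteField.pow_card x
  have hpp : x ^ p = x ^ (p - 1) * x := by
    rw [← pow_succ, Nat.sub_add_cancel (by omega)]
  by_cases h1 : x ^ (p - 1) = 1
  · -- `x` in the prime field
    have hxp : x ^ p = x := by rw [hpp, h1, one_mul]
    rw [pow_mul, h1, one_pow, mul_one]
    have hgf : (x ^ 3 - 5 * x ^ 2 + 5 * x) ^ p = x ^ 3 - 5 * x ^ 2 + 5 * x := by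
      rw [add_pow_char, sub_pow_char, mul_pow, mul_pow, f5, ← pow_mul, ← pow_mul, mul_comm 3 p,
        mul_comm 2 p, pow_mul, pow_mul, hxp]
    have hg0 : x ^ 3 - 5 * x ^ 2 + 5 * x ≠ 0 := by
      intro h0
      have h2 : x ^ 2 = 5 * x - 5 := by
        have h3 : x * (x ^ 2 - 5 * x + 5) = 0 := by linear_combination h0
        rcases mul_eq_zero.1 h3 with h4 | h4
        · exact absurd h4 hx0
        · linear_combination h4
      -- `x^5 = 275 x - 375`... so `5 = 275 x - 375`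
      have h3 : x ^ 5 = 275 * x - 375 := by
        have h4 : x ^ 4 = 75 * x - 100 := by
          linear_combination (x ^ 2 + 5 * x + 20) * h2
        linear_combination x * h4 + 75 * h2
      have h5 : 275 * x = 380 := by linear_combination hx - h3
      have h6 : 55 * x = 76 := by
        have : (5 : K) * (55 * x - 76) = 0 := by linear_combination h5
        rcases mul_eq_zero.1 this with h7 | h7
        · exact absurd h7 c5
        · linear_combination h7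
      -- `(55 x)^2 = 5 * 55 * (55 x) - 5 * 55^2`
      have h8 : (1 : K) = 0 := by
        have h9 : (76 : K) ^ 2 = 275 * 76 - 15125 := by
          rw [← h6]
          linear_combination 3025 * h2
        -- 5776 = 5775
        linear_combination h9
      exact one_ne_zero h8
    exact fix_pow h5p hg0 hgf
  · -- `ζ = x^{-(p-1)}`
    obtain ⟨ζ, hζd⟩ : ∃ ζ : K, ζ = (x ^ (p - 1))⁻¹ := ⟨_, rfl⟩
    have hx1 : x ^ (p - 1) ≠ 0 := pow_ne_zero _ hx0
    have hζx : ζ * x ^ (p - 1) = 1 := by rw [hζd]; exact inv_mul_cancel₀ hx1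
    have hζ0 : ζ ≠ 0 := by rw [hζd]; exact inv_ne_zero hx1
    have hζ : ζ ^ 5 = 1 := by
      have h2 : (x ^ (p - 1)) ^ 5 = 1 := by
        rw [← pow_mul, mul_comm, pow_mul, hx]
        have h3 : (5 : K) * 5 ^ (p - 1) = 5 * 1 := by
          rw [← pow_succ', Nat.sub_add_cancel (by omega), f5, mul_one]
        exact mul_left_cancel₀ c5 h3
      rw [hζd, inv_pow, h2, inv_one]
    have hζ1 : ζ ≠ 1 := by
      intro h2
      rw [h2, one_mul] at hζx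
      exact h1 hζx
    have hζp : ζ ^ p = ζ ^ 4 := by
      rw [pow_eq_pow_mod p hζ]
      have : p % 5 = 4 := by omega
      rw [this]
    -- `x^p = ζ^4 x`
    have hxp : x ^ p = ζ ^ 4 * x := by
      rw [hpp]
      congr 1
      linear_combination (x ^ (p - 1)) * hζ * (-1) + ζ ^ 4 * hζx
    have hθ : (x * ζ ^ 2) ^ 5 = 5 := by
      rw [mul_pow, hx, ← pow_mul, mul_comm 2 5, pow_mul, hζ, one_pow, mul_one]
    have hθp : (x * ζ ^ 2) ^ p = x * ζ ^ 2 := by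
      rw [mul_pow, hxp, ← pow_mul, mul_comm 2 p, pow_mul, hζp]
      linear_combination (ζ ^ 7 + ζ ^ 2) * x * hζ
    have hfin := final hp h5p hK hs hζ hζ1 hθ hθp
    -- `θ^3 (ζ^4 + ζ^3 θ^3 - ζ θ^4) = g(x)` up to the relations
    have hg : x ^ 3 - 5 * x ^ 2 + 5 * x =
        (x * ζ ^ 2) ^ 3 * (ζ ^ 4 + ζ ^ 3 * (x * ζ ^ 2) ^ 3 - ζ * (x * ζ ^ 2) ^ 4) := by
      have e1 : (x * ζ ^ 2) ^ 3 * (ζ ^ 4 + ζ ^ 3 * (x * ζ ^ 2) ^ 3 - ζ * (x * ζ ^ 2) ^ 4) =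
          x ^ 3 * (ζ ^ 5) ^ 2 + x * (ζ ^ 5) ^ 3 * x ^ 5 - x ^ 2 * (ζ ^ 5) ^ 3 * x ^ 5 := by ring
      rw [e1, hζ, hx]
      ring
    have hpos : (x * ζ ^ 2) ^ ((p ^ 2 - 1) / 5) = 1 :=
      fix_pow h5p (mul_ne_zero hx0 (pow_ne_zero 2 hζ0)) hθp
    rw [hg, mul_pow, ← pow_mul, mul_comm 3, pow_mul, hpos, one_pow, one_mul, hfin, pow_mul, ← mul_pow,
      hζx, one_pow]

end E8T5G
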