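import Pool.Agent.E8T5.FIN2
import Pool.Agent.E8T5G.QF

/-!
# [E8T5G] `τ(p)` modulo `625` for all primes `p ≡ 4 mod 5`, with the fifth power residue symbol
-/

set_option autoImplicit false

open E8X (tau)

namespace E8T5G

theorem Nq_eq {K : Type} [Field K] (p : ℕ) (s : K) : Nq p s = E8T5.Nf p s := rfl

/-- **`τ(p)` modulo `625`, all primes `p ≡ 4 mod 5`:** there is `N` with
`g(x)^((p²-1)/5) x^((p-1) N) = 1` for all `x` in the field with `p²` elements with `x⁵ = 5`,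
`g = X³ - 5 X² + 5 X`, and `τ(p) ≡ 106 (1 + p¹¹) - 200 (1 + p⁵) + (180 - 50 p) (1 + p) - 125 N`. -/
theorem tau_law {p : ℕ} (hp : p.Prime) (h5 : p % 5 = 4) {K : Type} [Field K] (hK : Nat.card K = p ^ 2)
    {s : K} (hs : s ^ 2 = 5) :
    (625 : ℤ) ∣ tau p - (106 * (1 + p ^ 11) - 200 * (1 + p ^ 5) + (180 - 50 * p) * (1 + p)
      - 125 * E8T5.Nf p s) ∧
    ∀ x : K, x ^ 5 = 5 →
      (x ^ 3 - 5 * x ^ 2 + 5 * x) ^ ((p ^ 2 - 1) / 5) * x ^ ((p - 1) * E8T5.Nf p s) = 1 :=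
  ⟨E8T5.tau_law hp h5 hK hs, fun _ hx => law hp (by omega) hK hs hx⟩

end E8T5G

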